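import Pool.Agent.Lib.MP_bc213e_ag.DL.Rank

/-! The generic fibre over its field of constants. -/

namespace Pool.Agent.Lib.MP_bc213e_ag

open Hyp

/-- All prime divisors over `X` whose centre passes through the point `p` of `Spec A₀` have
positive log discrepancy. -/
def Hyp.VKlt {K : Type} [Field K] [Algebra ℂ K] {n : ℕ} (D : Fin n → Derivation ℂ K K) (m : ℕ)
    (g : K) {A₀ : Subalgebra ℂ K} (p : Ideal A₀) : Prop :=
  ∀ (A : Subalgebra ℂ K) (w : Val K), A.FG → PrimeDiv A w → (∀ r : A₀, w r ≤ 1) →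
    (∀ r : A₀, r ∉ p → w r = 1) → LD D m w g 1

namespace DD

open scoped TensorProduct

noncomputable section

variable {K M ι : Type} [Field K] [Algebra ℂ K] [Field M] [Algebra ℂ M] [Algebra K M] {n : ℕ}

/-- The pair is klt at the points of dimension more than `d`. -/
def Su.VK (S : Su K M ι n) (d : ℕ) : Prop :=
  ∀ i (p : Ideal (chart S.x i)), p.IsPrime →
    (d : Cardinal) < Algebra.trdeg ℂ (chart S.x i ⧸ p) → VKlt S.D S.m (S.g i) p

namespace Geo

variable {S : Su K M ι n} {Ω E : Type} [Field Ω] [Algebra ℂ Ω] [Field E] [Algebra ℂ E]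
  [Algebra Ω E] [IsScalarTower ℂ Ω E] {b φ : ℕ} (G : Geo S Ω E b φ)

/-- The chart ring of the generic fibre. -/
def Dk (j : ι) : Subalgebra G.k M := Algebra.adjoin G.k (Set.range (S.gen j))

/-- The restrictions of the sections to the generic fibre. -/
def Rk (a : ℕ) : Submodule G.k M := Submodule.span G.k (S.U a : Set M)

variable [IsScalarTower ℂ K M] in
/-- The density of `d z` on the fibre. -/
def mz (z : Fin φ → M) : M := S.mu (Sum.elim G.y z ∘ G.ε)

/-- A derivation that kills `y` is linear over the constants. -/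
def kder (D : Derivation ℂ M M) (h : ∀ i, D (G.y i) = 0) : Derivation G.k M M :=
  Derivation.mk'
    { toFun := D
      map_add' := map_add D
      map_smul' := fun c f => by
        change D ((c : M) * f) = (c : M) * D f
        rw [Derivation.leibniz, G.der_k h c.2, smul_zero, add_zero, smul_eq_mul] }
    fun f g => D.leibniz f g

theorem kder_apply (D : Derivation ℂ M M) (h : ∀ i, D (G.y i) = 0) (f : M) :
    G.kder D h f = D f := rfl

/-- The generic fibre as a subvariety of finite rank. -/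
def pre : Pre S G.k M where
  ι := AlgHom.id ℂ M
  frac := fun z => ⟨1 ⊗ₜ z, 1, by simp, by simp⟩
  bd := fun a ha => by
    rw [map_baseChange]
    exact (Set.image_id (S.U a : Set M)).symm ▸ G.fd_k ha

theorem pre_C (j : ι) : G.pre.C j = G.Dk j := rfl

theorem pre_R (a : ℕ) : G.pre.R a = G.Rk a := by
  rw [Pre.R, Rk]
  exact congrArg _ (Set.image_id _)

theorem pre_X (j : ι) : G.pre.X j = S.X j := rfl

theorem B_le_Dk {j : ι} {f : M} (h : f ∈ S.B j) : f ∈ G.Dk j := G.pre.ι_mem_C h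

theorem k_le_Dk (j : ι) {f : M} (h : f ∈ G.k) : f ∈ G.Dk j := (G.Dk j).algebraMap_mem ⟨f, h⟩

theorem ι_mem_of_Dk {j : ι} {f : M} (h : f ∈ G.Dk j) : G.ι f ∈ G.C j := by
  induction h using Algebra.adjoin_induction with
  | mem x hx =>
    obtain ⟨o, rfl⟩ := hx
    exact G.ι_mem_C (S.gen_mem j o)
  | algebraMap r =>
    rw [show algebraMap G.k M r = (r : M) from rfl, G.toFib.ι_k r.2]
    exact (G.C j).algebraMap_mem _
  | add x y _ _ hx hy => rw [map_add]; exact add_mem hx hy
  | mul x y _ _ hx hy => rw [map_mul]; exact mul_mem hx hy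

theorem div_mem_Dk {a : ℕ} {w : M} (h : w ∈ G.Rk a) (j : ι) : w / S.X j ^ a ∈ G.Dk j :=
  Pre.div_mem_C (G := G.pre) (G.pre_R a ▸ h) j

theorem ι_mem_of_Rk {a : ℕ} {w : M} (h : w ∈ G.Rk a) : G.ι w ∈ G.R a := by
  induction h using Submodule.span_induction with
  | mem x hx => exact G.ι_mem_R hx
  | zero => rw [map_zero]; exact zero_mem _
  | add x y _ _ hx hy => rw [map_add]; exact add_mem hx hy
  | smul c x _ hx => rw [G.toFib.ι_smul]; exact Submodule.smul_mem _ _ hx

theorem k_charZero : CharZero G.k := charZero_of_injective_algebraMap (algebraMap ℂ G.k).injective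

theorem Dk_fg [Finite ι] (j : ι) : (G.Dk j).FG :=
  Subalgebra.fg_def.2 ⟨_, Set.finite_range _, rfl⟩

theorem Dk_ft [Finite ι] (j : ι) : Algebra.FiniteType G.k (G.Dk j) :=
  (Subalgebra.fg_iff_finiteType _).1 (G.Dk_fg j)

variable [IsScalarTower ℂ K M]

theorem mz_chain {z₀ : Fin φ → M} {D : Fin b ⊕ Fin φ → Derivation ℂ M M}
    (h : Frame (Sum.elim G.y z₀) D) (F : Fin b ⊕ Fin φ → M) :
    S.mu (F ∘ G.ε) = G.mz z₀ * (Matrix.of fun a c => D a (F c)).det ^ S.m := by
  rw [S.mu_chain (h.equiv G.ε), mz, ← Matrix.det_submatrix_equiv_self G.ε]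
  rfl

theorem mz_ne {z₀ : Fin φ → M} {D : Fin b ⊕ Fin φ → Derivation ℂ M M}
    (h : Frame (Sum.elim G.y z₀) D) : G.mz z₀ ≠ 0 := S.mu_ne_zero (h.equiv G.ε)

omit [IsScalarTower ℂ K M] in
theorem det_elim {z₀ : Fin φ → M} {D : Fin b ⊕ Fin φ → Derivation ℂ M M}
    (h : Frame (Sum.elim G.y z₀) D) (z : Fin φ → M) :
    (Matrix.of fun a c => D a (Sum.elim G.y z c)).det =
      (Matrix.of fun a c => D (Sum.inr a) (z c)).det := by
  have e : (Matrix.of fun a c => D a (Sum.elim G.y z c)) = Matrix.fromBlocks 1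
      (Matrix.of fun a c => D (Sum.inl a) (z c)) 0 (Matrix.of fun a c => D (Sum.inr a) (z c)) := by
    ext a c
    rcases c with c | c
    · refine (h.dual a (Sum.inl c)).trans ?_
      rcases a with a | a <;> simp [Matrix.one_apply]
    · rcases a with a | a <;> rfl
  rw [e, Matrix.det_fromBlocks_zero₂₁, Matrix.det_one, one_mul]

theorem mz_eq {z₀ : Fin φ → M} {D : Fin b ⊕ Fin φ → Derivation ℂ M M}
    (h : Frame (Sum.elim G.y z₀) D) (z : Fin φ → M) :
    G.mz z = G.mz z₀ * (Matrix.of fun a c => D (Sum.inr a) (z c)).det ^ S.m := by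
  rw [← G.det_elim h, ← G.mz_chain h, mz]

omit [IsScalarTower ℂ K M] in
/-- A transcendence basis over the constants extends `y` to a frame. -/
theorem exists_frame {z : Fin φ → M} (h : IsTranscendenceBasis G.k z) :
    ∃ D, Frame (Sum.elim G.y z) D := by
  have h1 : IsTranscendenceBasis ℂ (Sum.elim G.y z) :=
    (isTranscendenceBasis_equiv' (Equiv.sumComm _ _)
      (by funext o; cases o <;> rfl)).2 (G.y_basis.sumElim_comp h)
  obtain ⟨D, hD⟩ := TCI.exists_dual _ h1
  exact ⟨D, h1, hD⟩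

omit [IsScalarTower ℂ K M] in
theorem trdeg_kM : Algebra.trdeg G.k M = φ := by
  simpa using (G.z_basis G.frame.tb).cardinalMk_eq_trdeg.symm

variable [Fintype ι]

theorem Dk_frac (j : ι) : IsFractionRing (G.Dk j) M := by
  have := S.frac_B j
  refine IsFractionRing.of_field _ _ fun z => ?_
  obtain ⟨p, q, -, rfl⟩ := IsFractionRing.div_surjective (S.B j) z
  exact ⟨⟨p, G.B_le_Dk p.2⟩, ⟨q, G.B_le_Dk q.2⟩, rfl⟩

end Geo

end

end DD

end Pool.Agent.Lib.MP_bc213e_ag
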