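import Pool.Agent.Lib.MP_bc213e_ag.VK.Defs
import Pool.Agent.Lib.MP_bc213e_ag.DF.W

/-! The spaces of leading coefficients are defined over the constants. -/

namespace Pool.Agent.Lib.MP_bc213e_ag.DD

open Pool.Agent.Lib.MP_bc213e_ag.DA Pool.Agent.Lib.MP_bc213e_ag.Jet
open scoped TensorProduct

section ten

variable {Ω E M : Type} [Field Ω] [Algebra ℂ Ω] [Field E] [Algebra ℂ E] [Algebra Ω E]
  [IsScalarTower ℂ Ω E] [Field M] [Algebra ℂ M] {U : ℕ → Submodule ℂ M}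

/-- The map `c ⊗ f ↦ l c * f`. -/
noncomputable def ds_T (l : Ω →ₗ[ℂ] M) : Ω ⊗[ℂ] M →ₗ[ℂ] M := LinearMap.mul' ℂ M ∘ₗ l.rTensor M

theorem ds_T_tmul (l : Ω →ₗ[ℂ] M) (c : Ω) (f : M) : ds_T l (c ⊗ₜ[ℂ] f) = l c * f := rfl

theorem ds_dpow {b : ℕ} {D : Fin b → Derivation ℂ M M} (h : Comm D) (l : Ω →ₗ[ℂ] Ω)
    (β : Fin b →₀ ℕ) (s : Ω ⊗[ℂ] M) :
    dpow (comm_rder h) β (l.rTensor M s) = l.rTensor M (dpow (comm_rder h) β s) := by
  induction β using deg_ind with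
  | h0 => rw [dpow_zero, dpow_zero]
  | h1 β i ih =>
    rw [dpow_add_single, dpow_add_single, ih]
    generalize dpow (comm_rder h) β s = t
    induction t with
    | zero => simp only [map_zero]
    | add t t' h h' => simp only [map_add, h, h']
    | tmul c f => rfl

theorem ds_base {N : Type} [AddCommGroup N] {P : AddSubgroup N} {V : Submodule ℂ M}
    (ψ : Ω ⊗[ℂ] M →+ N) (h : ∀ c, ∀ f ∈ V, ψ (c ⊗ₜ[ℂ] f) ∈ P) {s : Ω ⊗[ℂ] M}
    (hs : s ∈ V.baseChange Ω) : ψ s ∈ P := by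
  obtain ⟨s, rfl⟩ := hs
  induction s with
  | zero => rw [map_zero, map_zero]; exact zero_mem _
  | add s s' h h' => rw [map_add, map_add]; exact add_mem h h'
  | tmul c f => exact h c _ f.2

namespace Fib

variable (F : Fib Ω E U)

/-- `l` is a functional on `Ω` that is linear over the constants. -/
structure ds_Lam (l : Ω →ₗ[ℂ] M) : Prop where
  mem : ∀ c, l c ∈ F.k
  mul : ∀ c, ∀ y ∈ F.k, l (c * F.e y) = l c * y

variable {F} in
theorem ds_Lam.ev {l : Ω →ₗ[ℂ] M} (h : F.ds_Lam l) (s : Ω ⊗[ℂ] M) :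
    evT Ω F.ι ((F.e.toLinearMap ∘ₗ l).rTensor M s) = F.ι (ds_T l s) := by
  induction s with
  | zero => simp only [map_zero]
  | add s s' h h' => simp only [map_add, h, h']
  | tmul c f =>
    rw [LinearMap.rTensor_tmul, evT_tmul, ds_T_tmul, map_mul, F.ι_k (h.mem c)]
    rfl

variable {F} in
theorem ds_Lam.kill {l : Ω →ₗ[ℂ] M} (hl : F.ds_Lam l) {s : Ω ⊗[ℂ] M} (hs : evT Ω F.ι s = 0) :
    ds_T l s = 0 := by
  have h1 := F.ker.le hs
  clear hs
  rw [← one_mul s]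
  generalize (1 : Ω ⊗[ℂ] M) = t
  induction h1 using Submodule.span_induction generalizing t with
  | mem s hs =>
    obtain ⟨y, hy, rfl⟩ := hs
    induction t with
    | zero => rw [zero_mul, map_zero]
    | add t t' h h' => rw [add_mul, map_add, h, h', add_zero]
    | tmul c g =>
      rw [mul_sub, map_sub, Algebra.TensorProduct.tmul_mul_tmul,
        Algebra.TensorProduct.tmul_mul_tmul, ds_T_tmul, ds_T_tmul, hl.mul c y hy, mul_one, mul_one]
      ring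
  | zero => rw [mul_zero, map_zero]
  | add s s' _ _ h h' => rw [mul_add, map_add, h, h', add_zero]
  | smul r s _ h => rw [smul_eq_mul, ← mul_assoc, h]

theorem ds_sep {s : Ω ⊗[ℂ] M} (h : ∀ l, F.ds_Lam l → ds_T l s = 0) : evT Ω F.ι s = 0 := by
  let : Algebra F.k Ω := (F.e.comp F.k.val).toRingHom.toAlgebra
  have : IsScalarTower ℂ F.k Ω := .of_algebraMap_eq fun c => ((F.e.comp F.k.val).commutes c).symm
  obtain ⟨S, rfl⟩ := TensorProduct.exists_finset s
  let β := Module.Basis.ofVectorSpace F.k Ω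
  classical
  let t := S.biUnion fun i => (β.repr i.1).support
  have h1 : ∀ i ∈ S, i.1 = ∑ j ∈ t, F.e (β.coord j i.1) * β j := fun i hi => by
    conv_lhs => rw [← β.linearCombination_repr i.1, Finsupp.linearCombination_apply]
    rw [Finsupp.sum_of_support_subset _ (Finset.subset_biUnion_of_mem
      (fun i : Ω × M => (β.repr i.1).support) hi) (fun j a => a • β j) fun j _ => zero_smul _ _]
    exact Finset.sum_congr rfl fun j _ => Algebra.smul_def _ _
  rw [map_sum, Finset.sum_congr rfl fun i hi => by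
    rw [evT_tmul, h1 i hi, map_sum, Finset.sum_mul], Finset.sum_comm]
  refine Finset.sum_eq_zero fun j _ => ?_
  have h2 := congrArg F.ι (h (F.k.val.toLinearMap ∘ₗ (β.coord j).restrictScalars ℂ)
    ⟨fun c => (β.coord j c).2, fun c y hy => by
      have h3 := (β.coord j).map_smul ⟨y, hy⟩ c
      rw [Algebra.smul_def, mul_comm, smul_eq_mul, mul_comm (⟨y, hy⟩ : F.k)] at h3
      exact congrArg Subtype.val h3⟩)
  rw [map_zero, map_sum, map_sum] at h2
  rw [← mul_zero (algebraMap Ω E (β j)), ← h2, Finset.mul_sum]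
  refine Finset.sum_congr rfl fun i _ => ?_
  rw [ds_T_tmul, map_mul, map_mul, ← F.ι_k (β.coord j i.1).2, mul_comm (F.ι _), mul_assoc]
  rfl

theorem ds_mem {V : Submodule ℂ M} {w : M}
    (h : F.ι w ∈ (V.baseChange Ω).map (evT Ω F.ι).toLinearMap) :
    w ∈ Submodule.span F.k (V : Set M) := by
  obtain ⟨s, hs, e⟩ := h
  obtain ⟨l, hl, h0⟩ : ∃ l, F.ds_Lam l ∧ l 1 ≠ 0 := by
    by_contra h0
    refine one_ne_zero ((map_one (evT Ω F.ι)).symm.trans (F.ds_sep fun l hl => ?_))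
    rw [Algebra.TensorProduct.one_def, ds_T_tmul, mul_one]
    exact not_not.1 fun h1 => h0 ⟨l, hl, h1⟩
  have h1 := hl.kill (s := 1 ⊗ₜ[ℂ] w - s) (by rw [map_sub, evT_one]; exact sub_eq_zero.2 e.symm)
  rw [map_sub, sub_eq_zero, ds_T_tmul] at h1
  have h2 := ds_base (P := (Submodule.span F.k (V : Set M)).toAddSubgroup)
    (ds_T l).toAddMonoidHom (fun c f hf =>
      Submodule.smul_mem _ (⟨l c, hl.mem c⟩ : F.k) (Submodule.subset_span hf)) hs
  refine (Submodule.smul_mem_iff _ (s := (⟨l 1, hl.mem 1⟩ : F.k))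
    fun h3 => h0 (congrArg Subtype.val h3)).1 ?_
  exact (h1 ▸ h2 : l 1 * w ∈ Submodule.span F.k (V : Set M))

end Fib

end ten

namespace Geo

variable {K M ι : Type} [Field K] [Algebra ℂ K] [Field M] [Algebra ℂ M] [Algebra K M] {n : ℕ}
  {S : Su K M ι n} {Ω E : Type} [Field Ω] [Algebra ℂ Ω] [Field E] [Algebra ℂ E] [Algebra Ω E]
  [IsScalarTower ℂ Ω E] {b φ : ℕ} (G : Geo S Ω E b φ) [IsScalarTower ℂ K M] [Fintype ι]
  [CharZero E]

omit [IsScalarTower ℂ K M] [Fintype ι] [CharZero E] in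
theorem ds_mem_Rk {a : ℕ} {w : M} (h : G.ι w ∈ G.R a) : w ∈ G.Rk a := G.toFib.ds_mem h

omit [Fintype ι] in
theorem W_desc {m a : ℕ} {α : Fin b →₀ ℕ} (h : G.W m a α ≠ ⊥) :
    ∃ w ∈ G.Rk a, w ≠ 0 ∧ G.ι w ∈ G.W m a α := by
  obtain ⟨w, hw, h0⟩ := (Submodule.ne_bot_iff _).1 h
  obtain ⟨s, h1, h2, rfl⟩ := (mem_Wt _ _).1 hw
  obtain ⟨l, hl, h3⟩ : ∃ l, G.toFib.ds_Lam l ∧
      ds_T l (dpow (comm_rder (Comm.inl G.frame.comm)) α s) ≠ 0 := by
    by_contra h3
    exact h0 ((coeff_tayL_eq_zero _ _ _ _).2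
      (G.toFib.ds_sep fun l hl => not_not.1 fun h4 => h3 ⟨l, hl, h4⟩))
  have h4 : G.ι (ds_T l (dpow (comm_rder (Comm.inl G.frame.comm)) α s)) ∈ G.W m a α := by
    have h5 : _ ∈ G.W m a α := (mem_Wt _ _).2 ⟨(G.e.toLinearMap ∘ₗ l).rTensor M s,
      ds_base (P := ((S.V m a).baseChange Ω).toAddSubgroup)
        ((G.e.toLinearMap ∘ₗ l).rTensor M).toAddMonoidHom
        (fun c f hf => Submodule.tmul_mem_baseChange_of_mem _ hf) h1, fun β hβ => by
      rw [coeff_tayL_eq_zero, ds_dpow (Comm.inl G.frame.comm), hl.ev,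
        hl.kill ((coeff_tayL_eq_zero _ _ _ _).1 (h2 β hβ)), map_zero], rfl⟩
    have h6 := nsmul_mem h5 (mfac α)
    rwa [coeff_tayL, ds_dpow (Comm.inl G.frame.comm), hl.ev, ← Nat.cast_smul_eq_nsmul ℚ, smul_smul,
      mul_inv_cancel₀ (Nat.cast_ne_zero.2 (mfac_pos α).ne'), one_smul] at h6
  exact ⟨_, G.ds_mem_Rk (G.W_le_R m a α h4), h3, h4⟩

end Geo

end Pool.Agent.Lib.MP_bc213e_ag.DD
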