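import Pool.Agent.Lib.MP_bc213e_ag.KBG.Eff

/-! Positive log discrepancy in logarithmic form. -/

namespace Pool.Agent.Lib.MP_bc213e_ag.VK

open Pool.Agent.Lib.MP_bc213e_ag.Hyp Pool.Agent.Lib.MP_bc213e_ag.KBG WithZero MvPolynomial

theorem ld_of_klt {K : Type} [Field K] [Algebra ℂ K] {n : ℕ} (dim : Algebra.trdeg ℂ K = n)
    (D : Fin n → Derivation ℂ K K) {m : ℕ} {w : Val K} (hw : Triv w) (hπ : ∃ π, w π = exp (-1))
    {g : K} {u : Fin n → K} (hu : ∀ l, w (u l) ≤ 1) (h0 : jac D u ≠ 0)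
    (h : exp (-(m : ℤ)) * w g < w (jac D u) ^ m) : LD D m w g 1 := by
  obtain ⟨π, hπ⟩ := hπ
  have hπ0 : π ≠ 0 := fun h => by
    rw [h, map_zero] at hπ
    exact exp_ne_zero hπ.symm
  have hπ1 : w π < 1 := by
    rw [hπ, ← exp_zero, exp_lt_exp]
    omega
  obtain ⟨F, h2, h3⟩ := adj_dep dim w hw hπ0 hπ1 hu
  obtain ⟨G, a, -, h4, h5⟩ := adj_min w hw hu h2 h3
  have h6 : w (jac D (Function.update u a (aeval u G))) = w (jac D u) := by
    rw [jac_update_aeval, map_mul, h5, one_mul]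
  have h7 : w (jac D u) ≠ 0 := (Valuation.ne_zero_iff w).2 h0
  refine ⟨Function.update u a (aeval u G), a, fun b => ?_, fun e => h7 ?_, primeExp ?_⟩
  · by_cases hb : b = a
    · rw [hb, Function.update_self]
      exact h4.le
    · rw [Function.update_of_ne hb]
      exact hu b
  · rw [← h6, e, map_zero]
  · rw [Function.update_self, map_div₀, map_mul, map_pow, map_pow, h6,
      div_lt_one₀ (pow_pos (zero_lt_iff.2 h7) m), mul_comm]
    refine lt_of_le_of_lt (mul_le_mul_left ?_ _) h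
    refine (pow_le_pow_left' (primeExp h4) m).trans_eq ?_
    rw [← exp_nsmul, smul_neg, nsmul_one]

end Pool.Agent.Lib.MP_bc213e_ag.VK
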