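import Pool.Agent.Lib.MP_bc213e_ag.VK.Defs
import Pool.Agent.Lib.MP_bc213e_ag.KBG.Eff
import Pool.Agent.Lib.MP_4287a9_ag.WVb

/-! Coordinates at a divisor over the generic fibre are coordinates on the total space. -/

namespace Pool.Agent.Lib.MP_bc213e_ag.DD

open Pool.Agent.Lib.MP_4287a9_ag

/-- If the dual derivations of a frame preserve `O` and `T c₀` generates the maximal ideal, the
residues of the other coordinates are algebraically independent. -/
theorem Frame.res_indep {M κ : Type} [Field M] [Algebra ℂ M] [DecidableEq κ] {T : κ → M}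
    {D : κ → Derivation ℂ M M} (h : Frame T D) (O : ValuationSubring M)
    (hC : ∀ c : ℂ, algebraMap ℂ M c ∈ O) (hT : ∀ c, T c ∈ O) (hD : ∀ c, ∀ f ∈ O, D c f ∈ O)
    {c₀ : κ} (h1 : O.valuation (T c₀) < 1) (hg : ∀ a, O.valuation a < 1 → a / T c₀ ∈ O) {d : ℕ}
    {σ : Fin d → κ} (hσ : Function.Injective σ) (h0 : ∀ l, σ l ≠ c₀)
    {Q : MvPolynomial (Fin d) ℂ} (hQ : Q ≠ 0) :
    O.valuation (MvPolynomial.aeval (T ∘ σ) Q) = 1 := by
  by_contra hne
  have hw : ∀ c : ℂ, O.valuation (algebraMap ℂ M c) ≤ 1 := fun c =>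
    (O.valuation_le_one_iff _).2 (hC c)
  have hu : ∀ l, O.valuation ((T ∘ σ) l) ≤ 1 := fun l => (O.valuation_le_one_iff _).2 (hT _)
  obtain ⟨P, a, -, h2, h3⟩ := KBG.adj_min O.valuation hw hu hQ
    (lt_of_le_of_ne (KBG.adj_aeval_le _ hw hu Q) hne)
  have e1 : D (σ a) (MvPolynomial.aeval (T ∘ σ) P) =
      MvPolynomial.aeval (T ∘ σ) (MvPolynomial.pderiv a P) := by
    rw [KBG.adj_der_aeval, Finset.sum_eq_single a (fun l _ hl => by
      rw [Function.comp_apply, h.dual, if_neg fun e => hl (hσ e).symm, mul_zero]) (by simp),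
      Function.comp_apply, h.dual, if_pos rfl, mul_one]
  have hT0 : T c₀ ≠ 0 := fun e => by
    have := h.dual c₀ c₀
    rw [e, map_zero, if_pos rfl] at this
    exact zero_ne_one this
  rw [← e1, ← mul_div_cancel₀ (MvPolynomial.aeval (T ∘ σ) P) hT0, Derivation.leibniz, h.dual,
    if_neg (h0 a), smul_zero, add_zero, smul_eq_mul, map_mul] at h3
  exact (mul_lt_one_of_lt_of_le h1 ((O.valuation_le_one_iff _).2 (hD _ _ (hg _ h2)))).ne h3

namespace Geo

variable {K M ι : Type} [Field K] [Algebra ℂ K] [Field M] [Algebra ℂ M] [Algebra K M] {n : ℕ}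
  {S : Su K M ι n} {Ω E : Type} [Field Ω] [Algebra ℂ Ω] [Field E] [Algebra ℂ E] [Algebra Ω E]
  [IsScalarTower ℂ Ω E] {b φ : ℕ} (G : Geo S Ω E b φ) [IsScalarTower ℂ K M] [Fintype ι]

omit [IsScalarTower ℂ K M] [Fintype ι] in
theorem frame_pres {A : Subalgebra G.k M} {z : Fin φ → M} (hz : EtC A z)
    {O : ValuationSubring M} (hle : ∀ a ∈ A, a ∈ O)
    (hloc : ∀ w ∈ O, ∃ s ∈ A, s ≠ 0 ∧ s⁻¹ ∈ O ∧ s * w ∈ A)
    {D : Fin b ⊕ Fin φ → Derivation ℂ M M} (h : Frame (Sum.elim G.y z) D) (c : Fin b ⊕ Fin φ)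
    {f : M} (hf : f ∈ O) : D c f ∈ O := by
  have hk : ∀ g ∈ G.k, D c g ∈ O := fun g hg => by
    refine hle _ (A.algebraMap_mem (⟨D c g, ?_⟩ : G.k))
    rcases c with i | c
    · obtain ⟨d, -, hd, -⟩ := G.exists_left
      refine (G.agree G.y_basis (d := d i) (fun l => ?_) g hg).1
      have e : D (Sum.inl i) (G.y l) = if i = l then 1 else 0 :=
        (h.dual _ (Sum.inl l)).trans (by simp)
      rw [e, hd]
      split_ifs <;> simp
    · rw [G.der_k (fun l => (h.dual _ (Sum.inl l)).trans (if_neg Sum.inr_ne_inl)) hg]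
      exact zero_mem _
  let N : Submodule A M :=
    { carrier := O
      add_mem' := fun ha hb => add_mem ha hb
      zero_mem' := zero_mem O
      smul_mem' := fun a _ hb => mul_mem (hle _ a.2) hb }
  let δ : A →ₗ[G.k] M ⧸ N :=
    { toFun := fun a => N.mkQ (D c a)
      map_add' := fun a a' => by rw [AddMemClass.coe_add, map_add, map_add]
      map_smul' := fun r a => by
        refine (Submodule.Quotient.eq N).2 ?_
        change D c ((r : M) * a) - (r : M) * D c a ∈ O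
        rw [Derivation.leibniz, smul_eq_mul, smul_eq_mul, add_sub_cancel_left]
        exact mul_mem (hle _ a.2) (hk _ r.2) }
  have hA : ∀ a ∈ A, D c a ∈ O := fun a ha => by
    refine (Submodule.Quotient.mk_eq_zero N).1 (Res.resA2_apply (Res.unr_of_etC hz) δ
      (fun a a' => ?_) (fun y ⟨l, hl⟩ => ?_) ⟨a, ha⟩)
    · change N.mkQ (D c ((a : M) * a')) = a • N.mkQ (D c a') + a' • N.mkQ (D c a)
      rw [Derivation.leibniz, map_add, ← N.mkQ.map_smul, ← N.mkQ.map_smul]
      rfl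
    · refine (Submodule.Quotient.mk_eq_zero N).2 ?_
      change D c y ∈ O
      rw [← hl, show D c (z l) = _ from h.dual c (Sum.inr l)]
      split_ifs
      exacts [one_mem O, zero_mem O]
  obtain ⟨s, hs, h0, h1, h2⟩ := hloc f hf
  have e : D c f = s⁻¹ * (D c (s * f) - f * D c s) := by
    rw [Derivation.leibniz, smul_eq_mul, smul_eq_mul, add_sub_cancel_right,
      inv_mul_cancel_left₀ h0]
  rw [e]
  exact mul_mem h1 (sub_mem (hA _ h2) (mul_mem hf (hA _ hs)))

omit [IsScalarTower ℂ K M] in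
/-- Coordinates at a divisor over the generic fibre. -/
theorem exists_chart {j : ι} {T : Finset M} {O : ValuationSubring M} (h : IsDiv (G.Dk j) T O) :
    ∃ (z : Fin φ → M) (D : Fin b ⊕ Fin φ → Derivation ℂ M M) (l₀ : Fin φ) (π : O),
      Irreducible π ∧ z l₀ = π ∧ (∀ c, z c ∈ Algebra.adjoin (G.Dk j) (T : Set M)) ∧
      Frame (Sum.elim G.y z) D ∧ ∀ c, ∀ f ∈ O, D c f ∈ O := by
  have := G.k_charZero
  have h1 : ∀ a, a ∈ Algebra.adjoin G.k (Set.range (S.gen j) ∪ T) ↔
      a ∈ Algebra.adjoin (G.Dk j) (T : Set M) := fun a => by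
    rw [Algebra.adjoin_union_eq_adjoin_adjoin]
    rfl
  have h2 : ∀ c i, G.D₀ (Sum.inr c) (G.y i) = 0 := fun c i =>
    (G.frame.dual _ (Sum.inl i)).trans (if_neg Sum.inr_ne_inl)
  obtain ⟨l₀, z, e, π, h3, h4, h5, h6, h7, h8, h9, h10, -⟩ := wva_chart (F := G.k) (n := φ)
    (fun w hw => by
      have := hw.lift_cardinalMk_le_trdeg
      rw [G.trdeg_kM] at this
      simp only [Cardinal.mk_fintype, Fintype.card_fin, Cardinal.lift_natCast, Nat.cast_le] at this
      omega)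
    (D := fun c => G.kder _ (h2 c)) (x := G.z₀) (by
      rw [show (Matrix.of fun i l => G.kder _ (h2 i) (G.z₀ l)) = 1 from Matrix.ext fun i l =>
        (G.frame.dual _ (Sum.inr l)).trans (by simp [Matrix.one_apply]), Matrix.det_one]
      exact one_ne_zero)
    (A := Algebra.adjoin G.k (Set.range (S.gen j) ∪ T))
    (Subalgebra.fg_def.2 ⟨_, (Set.finite_range _).union T.finite_toSet, rfl⟩) h.1
    (fun a ha => h.2.1 a ((h1 a).1 ha)) fun w hw => by
      obtain ⟨s, hs, s0, s1, s2⟩ := h.2.2 w hw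
      exact ⟨s, (h1 _).2 hs, s0, s1, (h1 _).2 s2⟩
  obtain ⟨D, hD, -⟩ := G.frame.exchange (Sum.elim G.y z) (by
    rw [G.det_elim G.frame]
    exact h10)
  have hle : ∀ a ∈ Algebra.adjoin G.k (Set.range (S.gen j) ∪ T), a ∈ O := fun a ha =>
    h.2.1 a ((h1 a).1 ha)
  refine ⟨z, D, l₀, π, h3, h4, fun c => (h1 _).1 (h5 c), hD, fun c f hf =>
    G.frame_pres h9 (fun a ha => ?_) (fun w hw => ?_) hD c hf⟩
  · induction ha using Algebra.adjoin_induction with
    | mem a ha => exact ha.elim (hle a) fun e => e ▸ h8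
    | algebraMap r => exact hle _ (algebraMap_mem _ r)
    | add a a' _ _ ha ha' => exact add_mem ha ha'
    | mul a a' _ _ ha ha' => exact mul_mem ha ha'
  · obtain ⟨s, hs, s0, s1, s2⟩ := h.2.2 w hw
    exact ⟨s, Algebra.subset_adjoin (Or.inl ((h1 _).2 hs)), s0, s1,
      Algebra.subset_adjoin (Or.inl ((h1 _).2 s2))⟩

end Geo

end Pool.Agent.Lib.MP_bc213e_ag.DD
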