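import Pool.Agent.Lib.MP_4287a9_ag.WVb

/-! The order of a polynomial along a divisor is bounded by the degree times the log
discrepancy. -/

namespace Pool.Agent.Lib.MP_bc213e_ag.VK

open Pool.Agent.Lib.MP_4287a9_ag

section Aux

open MvPolynomial

variable {F K : Type} [Field F] [Field K] [Algebra F K] {n : ℕ} {x : Fin n → K}
  {D : Fin n → Derivation F K K} {O : ValuationSubring K}

theorem iz_tdeg {P : MvPolynomial (Fin n) F} {s : Fin n} (h : pderiv s P ≠ 0) :
    (pderiv s P).totalDegree < P.totalDegree := by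
  obtain ⟨m, hm, he⟩ := Finset.exists_mem_eq_sup _ (support_nonempty.mpr h)
    fun m : Fin n →₀ ℕ => m.sum fun _ e => e
  rw [totalDegree, he]
  rw [mem_support_iff, coeff_pderiv] at hm
  refine lt_of_lt_of_le ?_ (le_totalDegree (mem_support_iff.mpr (left_ne_zero_of_mul hm)))
  rw [Finsupp.sum_add_index' (fun _ => rfl) fun _ _ _ => rfl, Finsupp.sum_single_index rfl]
  exact Nat.lt_succ_self _

theorem iz_eq_C [CharZero F] {P : MvPolynomial (Fin n) F} (h : ∀ s, pderiv s P = 0) :
    P = C (coeff 0 P) := by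
  ext m
  rw [coeff_C]
  split_ifs with hm
  · rw [← hm]
  obtain ⟨s, hs⟩ := Finsupp.ne_iff.1 (Ne.symm hm)
  have h1 := coeff_pderiv (i := s) P (m - Finsupp.single s 1)
  rw [h s, coeff_zero, tsub_add_cancel_of_le
    (Finsupp.single_le_iff.mpr (Nat.one_le_iff_ne_zero.mpr hs))] at h1
  exact (mul_eq_zero.mp h1.symm).resolve_right (Nat.cast_add_one_ne_zero _)

theorem iz_der (hD : DualD D x) (i : Fin n) (p : MvPolynomial (Fin n) F) :
    D i (aeval x p) = aeval x (pderiv i p) := by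
  induction p using MvPolynomial.induction_on with
  | C c => simp
  | add p q hp hq => simp only [map_add, hp, hq]
  | mul_X p l hp =>
    rw [map_mul, aeval_X, Derivation.leibniz, hp, hD, pderiv_mul, pderiv_X]
    rcases eq_or_ne i l with rfl | h
    · simp [add_comm, mul_comm]
    · simp [h, h.symm, mul_comm]

theorem iz_jac (hD : DualD D x) (i : Fin n) (f : K) : jac D (Function.update x i f) = D i f := by
  have h : (Matrix.of fun a l => D a (Function.update x i f l)) =
      (1 : Matrix (Fin n) (Fin n) K).updateCol i fun a => D a f := by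
    ext a l
    rcases eq_or_ne l i with rfl | h
    · simp
    · simp [h, hD a l, Matrix.one_apply]
  rw [jac, h, ← Matrix.cramer_apply, Matrix.cramer_one]
  rfl

/-- Logarithmic derivatives have at most a simple pole. -/
theorem iz_log (hO : IsDiscreteValuationRing O) {π : O} (hπ : Irreducible π)
    {E : Derivation F K K} {J : K} (h : ∀ a ∈ O, E a / J ∈ O) {f : K} (hf : f ≠ 0) :
    π / J * (E f / f) ∈ O := by
  obtain ⟨h1, h2⟩ := div_zpow_ordS_mem hO hπ hf
  generalize ordS O {f} = k at h1 h2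
  have h0 := wv1_ne hπ
  have h3 := zpow_ne_zero k h0
  obtain ⟨u, rfl⟩ : ∃ u, f = u * (π : K) ^ k := ⟨f / π ^ k, (div_mul_cancel₀ _ h3).symm⟩
  rw [mul_div_cancel_right₀ _ h3] at h1
  rw [mul_comm, div_mul_cancel_left₀ h3] at h2
  have h4 := left_ne_zero_of_mul hf
  have h5 : π / J * (E (u * π ^ k) / (u * π ^ k)) = k * (E π / J) + π * (E u / J) * u⁻¹ := by
    rw [Derivation.leibniz, Derivation.leibniz_zpow, zpow_sub_one₀ h0]
    simp only [smul_eq_mul, zsmul_eq_mul, div_eq_mul_inv]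
    generalize J⁻¹ = j
    field_simp
  rw [h5]
  exact add_mem (mul_mem (intCast_mem _ _) (h _ π.2)) (mul_mem (mul_mem π.2 (h _ h1)) h2)

theorem iz_ind [CharZero F] (hD : DualD D x) (hF : ∀ c, algebraMap F K c ∈ O) {a : K}
    (ha : a ∈ O) (h : ∀ i, ∀ f ≠ 0, a * (D i f / f) ∈ O) (N : ℕ) :
    ∀ p : MvPolynomial (Fin n) F, p ≠ 0 → p.totalDegree ≤ N →
      aeval x p ≠ 0 ∧ a ^ N / aeval x p ∈ O := by
  have h0 : ∀ (N : ℕ) (p : MvPolynomial (Fin n) F), p ≠ 0 → (∀ s, pderiv s p = 0) →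
      aeval x p ≠ 0 ∧ a ^ N / aeval x p ∈ O := fun N p hp hc => by
    rw [iz_eq_C hc] at hp ⊢
    rw [aeval_C, div_eq_mul_inv, ← map_inv₀]
    exact ⟨(map_ne_zero _).2 (C_ne_zero.1 hp), mul_mem (pow_mem ha _) (hF _)⟩
  induction N with
  | zero =>
    exact fun p hp hN => h0 0 p hp fun s => not_not.1 fun hs =>
      Nat.not_lt_zero _ ((iz_tdeg hs).trans_le hN)
  | succ N ih =>
    intro p hp hN
    by_cases hc : ∀ s, pderiv s p = 0
    · exact h0 _ p hp hc
    obtain ⟨s, hs⟩ := not_forall.1 hc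
    obtain ⟨h1, h2⟩ := ih _ hs (Nat.lt_succ_iff.1 ((iz_tdeg hs).trans_le hN))
    rw [← iz_der hD] at h1 h2
    have h3 : aeval x p ≠ 0 := fun e => h1 (by rw [e, map_zero])
    have h4 := mul_mem h2 (h s _ h3)
    rw [mul_left_comm, div_mul_div_cancel₀ h1, ← mul_div_assoc, ← pow_succ'] at h4
    exact ⟨h3, h4⟩

end Aux

variable {F R K : Type} [Field F] [CharZero F] [CommRing R] [IsDomain R] [Algebra F R] [Field K]
  [Algebra F K] [Algebra R K] [IsScalarTower F R K] [IsFractionRing R K] [Algebra.FiniteType F R]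
  {n : ℕ} {x : Fin n → R} {D : Fin n → Derivation F K K}

theorem ord_aeval_le (hx : ∀ a : R, IsIntegral (Algebra.adjoin F (Set.range x)) a)
    (hD : DualD D fun l => algebraMap R K (x l)) {S : Finset K} {O : ValuationSubring K}
    (h : IsDiv R S O) {p : MvPolynomial (Fin n) F} (hp : p ≠ 0) {N : ℕ}
    (hN : p.totalDegree ≤ N) :
    ordS O {MvPolynomial.aeval (fun l => algebraMap R K (x l)) p} ≤
      N * (1 - ordS O (jacs D O)) := by
  obtain ⟨e, z, l0, π, -, -, h1, hz, hπ, -⟩ := h.exists_chart hx hD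
  have hS : (S : Set K) ⊆ ch F R ((S : Set K) ∪ {e⁻¹}) := fun a ha =>
    Algebra.subset_adjoin (Or.inr (Or.inl ha))
  have hS' : ∀ a ∈ (S : Set K) ∪ {e⁻¹}, a ∈ O := fun a ha =>
    ha.elim (fun ha => h.2.1 a (Algebra.subset_adjoin ha)) fun ha => ha ▸ h1
  have hF : ∀ c, algebraMap F K c ∈ O := fun c =>
    IsScalarTower.algebraMap_apply F R K c ▸ h.base _
  have h0 := jac_ne_zero hD hz
  have h2 : ∀ w : Fin n → K, (∀ l, w l ∈ O) → jac D w / jac D z ∈ O := fun w hw => by
    refine jac_div_mem hz h0 (fun a ha => ?_) (fun a ha => ?_) hw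
    · induction ha using Algebra.adjoin_induction with
      | mem a ha => exact ha.elim (fun ⟨r, hr⟩ => hr ▸ h.base r) (hS' a)
      | algebraMap c => exact hF c
      | add a a' _ _ ha ha' => exact add_mem ha ha'
      | mul a a' _ _ ha ha' => exact mul_mem ha ha'
    · have h3 := fun b (hb : b ∈ Algebra.adjoin R (S : Set K)) => (wvb_ch (F := F) _ b).2
        (Algebra.adjoin_mono (Set.subset_union_left (t := {e⁻¹})) hb)
      obtain ⟨b, hb, hb0, hb1, hb2⟩ := h.2.2 a ha
      exact ⟨b, h3 _ hb, hb0, hb1, h3 _ hb2⟩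
  have h3 : jac D (fun l => algebraMap R K (x l)) = 1 := by
    rw [jac, show (Matrix.of fun i l => D i (algebraMap R K (x l))) = 1 from
      Matrix.ext fun i l => hD i l, Matrix.det_one]
  have h4 : π / jac D z ∈ O := by
    rw [div_eq_mul_one_div, ← h3]
    exact mul_mem π.2 (h2 _ fun l => h.base _)
  obtain ⟨h5, h6⟩ := iz_ind hD hF h4 (fun i f hf => iz_log h.1 hπ (fun a ha => by
    rw [← iz_jac hD]
    exact h2 _ fun l => by
      rcases eq_or_ne l i with rfl | hl
      · rwa [Function.update_self]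
      · rw [Function.update_of_ne hl]
        exact h.base _) hf) N p hp hN
  have h7 := wv1_ne hπ
  have h8 := div_ne_zero h7 h0
  rw [← ordS_le_iff h.1 h5 (pow_ne_zero _ h8), ← zpow_natCast, ordS_zpow h.1 h8, div_eq_mul_inv,
    ordS_mul h.1 h7 (inv_ne_zero h0), ← zpow_neg_one, ordS_zpow h.1 h0,
    ordS_eq_of_unit (e := 1) h.1 hπ h7 (by simp [h7]) (by simp [h7]), neg_one_mul,
    ← sub_eq_add_neg] at h6
  rwa [h.ordS_jacs hD hS hS' hz]

end Pool.Agent.Lib.MP_bc213e_ag.VK
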