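import Mathlib

/-! Restriction of a divisorial valuation to a subfield. -/

namespace Pool.Agent.Lib.MP_bc213e_ag.VK

open MvPolynomial

variable {K M : Type} [Field K] [Field M] [Algebra K M]

theorem ra_lt {F : Type} [Field F] (A : ValuationSubring F) (x : F) :
    A.valuation x < 1 ↔ x = 0 ∨ x⁻¹ ∉ A := by
  rw [← A.mem_nonunits_iff, A.mem_nonunits_iff_or]

theorem ra_lt' (O : ValuationSubring M) (a : K) :
    (O.comap (algebraMap K M)).valuation a < 1 ↔ O.valuation (algebraMap K M a) < 1 := by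
  rw [ra_lt, ra_lt, ValuationSubring.mem_comap, map_inv₀, map_eq_zero]

/-- The maximal ideal of the restriction of a discrete valuation ring is principal. -/
theorem res_gen (O : ValuationSubring M) (hO : IsDiscreteValuationRing O)
    (h : ∃ a : K, algebraMap K M a ∉ O) :
    ∃ π : K, π ≠ 0 ∧ (O.comap (algebraMap K M)).valuation π < 1 ∧
      ∀ a, (O.comap (algebraMap K M)).valuation a < 1 → a / π ∈ O.comap (algebraMap K M) := by
  obtain ⟨b, hb⟩ := h
  have hb0 : b ≠ 0 := by
    rintro rfl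
    exact hb (by rw [map_zero]; exact O.zero_mem)
  let S : Set (Ideal O) := {I | ∃ (a : K) (x : O), a ≠ 0 ∧ O.valuation (algebraMap K M a) < 1 ∧
    (x : M) = algebraMap K M a ∧ I = Ideal.span {x}}
  have hS : ∀ a : K, a ≠ 0 → O.valuation (algebraMap K M a) < 1 →
      ∃ x : O, (x : M) = algebraMap K M a ∧ Ideal.span {x} ∈ S := fun a h0 h1 =>
    ⟨⟨_, (O.valuation_le_one_iff _).1 h1.le⟩, rfl, a, _, h0, h1, rfl, rfl⟩
  obtain ⟨x0, -, hx0⟩ := hS b⁻¹ (inv_ne_zero hb0) ((ra_lt O _).2 (Or.inr (by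
    rwa [map_inv₀, inv_inv])))
  obtain ⟨I, ⟨π, x, h0, h1, hx, rfl⟩, hm⟩ :=
    set_has_maximal_iff_noetherian.2 (inferInstance : IsNoetherian O O) S ⟨_, hx0⟩
  refine ⟨π, h0, (ra_lt' O π).2 h1, fun a ha => ?_⟩
  by_cases a0 : a = 0
  · rw [a0, zero_div]
    exact ValuationSubring.zero_mem _
  obtain ⟨y, hy, hy'⟩ := hS a a0 ((ra_lt' O a).1 ha)
  have hxy : Ideal.span {y} ≤ Ideal.span {x} :=
    (ValuationRing.dvd_total x y).elim Ideal.span_singleton_le_span_singleton.2 fun e =>
      ((Ideal.span_singleton_le_span_singleton.2 e).eq_or_lt.resolve_right (hm _ hy')).ge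
  obtain ⟨c, hc⟩ := Ideal.span_singleton_le_span_singleton.1 hxy
  have e : (y : M) = x * c := congrArg Subtype.val hc
  rw [ValuationSubring.mem_comap, map_div₀, ← hy, e, hx,
    mul_div_cancel_left₀ _ ((map_ne_zero _).2 h0)]
  exact c.2

theorem res_val (O : ValuationSubring M) (a : K) :
    ((O.comap (algebraMap K M)).valuation a = 1 ↔ O.valuation (algebraMap K M a) = 1) ∧
    ((O.comap (algebraMap K M)).valuation a < 1 ↔ O.valuation (algebraMap K M a) < 1) := by
  refine ⟨?_, ra_lt' O a⟩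
  rw [le_antisymm_iff, le_antisymm_iff, ValuationSubring.valuation_le_one_iff,
    ValuationSubring.valuation_le_one_iff, ← not_lt, ← not_lt, ra_lt', ValuationSubring.mem_comap]

theorem rb_iff {R ι : Type} [Field R] [Algebra R M] (O : ValuationSubring M) [Algebra R O]
    [IsScalarTower R O M] (u : ι → O) :
    AlgebraicIndependent R (fun l => IsLocalRing.residue O (u l)) ↔
      ∀ Q : MvPolynomial ι R, Q ≠ 0 → O.valuation (aeval (fun l => (u l : M)) Q) = 1 := by
  rw [algebraicIndependent_iff]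
  refine forall_congr' fun Q => ?_
  have h1 : aeval (fun l => IsLocalRing.residue O (u l)) Q = IsLocalRing.residue O (aeval u Q) :=
    aeval_algebraMap_apply (IsLocalRing.ResidueField O) u Q
  have h2 : aeval (fun l => (u l : M)) Q = (aeval u Q : O) := aeval_algebraMap_apply M u Q
  rw [h1, h2, ← O.valuation_eq_one_iff, ← IsLocalRing.residue_ne_zero_iff_isUnit, not_imp_not]

theorem rb_lift {S ι : Type} (O : ValuationSubring M) [CommRing S]
    [Algebra S (IsLocalRing.ResidueField O)] (hS : ∀ (a : K) (h : algebraMap K M a ∈ O),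
      ∃ s : S, algebraMap S _ s = IsLocalRing.residue O ⟨_, h⟩) {x : ι → O}
    (hx : AlgebraicIndependent S fun l => IsLocalRing.residue O (x l)) :
    AlgebraicIndependent K fun l => (x l : M) := by
  classical
  rw [algebraicIndependent_iff] at hx ⊢
  intro P hP
  by_contra h0
  obtain ⟨m, hm, h1⟩ := P.support.exists_max_image
    (fun n => O.valuation (algebraMap K M (P.coeff n))) (support_nonempty.2 h0)
  have hm0 := mem_support_iff.1 hm
  have h2 : ∀ n, algebraMap K M (P.coeff n / P.coeff m) ∈ O := fun n => by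
    rw [← O.valuation_le_one_iff, map_div₀, map_div₀]
    refine div_le_one_of_le₀ ?_ zero_le
    by_cases hn : n ∈ P.support
    · exact h1 n hn
    · rw [notMem_support_iff.1 hn, map_zero, map_zero]
      exact zero_le
  choose c hc using fun n => hS _ (h2 n)
  have h3 := hx (∑ n ∈ P.support, monomial n (c n)) (by
    have e : (∑ n ∈ P.support, (⟨_, h2 n⟩ : O) * n.prod fun i k => x i ^ k) = 0 := by
      apply O.subtype_injective
      rw [P.as_sum, map_sum] at hP
      rw [map_sum, map_zero, ← zero_div (algebraMap K M (P.coeff m)), ← hP, Finset.sum_div]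
      refine Finset.sum_congr rfl fun n _ => ?_
      simp only [aeval_monomial, Finsupp.prod, map_mul, map_prod, map_pow, map_div₀,
        ValuationSubring.subtype_apply, mul_div_right_comm]
    have e2 := congrArg (IsLocalRing.residue O) e
    rw [map_sum, map_zero] at e2
    rw [map_sum, ← e2]
    refine Finset.sum_congr rfl fun n _ => ?_
    simp only [aeval_monomial, Finsupp.prod, map_mul, map_prod, map_pow, hc])
  have h4 := congrArg (coeff m) h3
  rw [coeff_sum, Finset.sum_eq_single m (fun n _ hn => by rw [coeff_monomial, if_neg hn])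
    (fun h => absurd hm h), coeff_monomial, if_pos rfl, coeff_zero] at h4
  have h5 := hc m
  rw [h4, map_zero, show (⟨_, h2 m⟩ : O) = 1 from Subtype.ext (by simp [hm0]), map_one] at h5
  exact zero_ne_one h5

/-- The transcendence degree of the residue field drops by at most that of the extension. -/
theorem res_indep [Algebra ℂ K] [Algebra ℂ M] [IsScalarTower ℂ K M] (dim : Algebra.trdeg K M ≤ 1)
    (O : ValuationSubring M) (hC : ∀ c : ℂ, algebraMap ℂ M c ∈ O) {d : ℕ} {s : Fin (d + 1) → M}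
    (hs : ∀ l, s l ∈ O)
    (hi : ∀ Q : MvPolynomial (Fin (d + 1)) ℂ, Q ≠ 0 → O.valuation (aeval s Q) = 1) :
    ∃ t : Fin d → K, (∀ l, algebraMap K M (t l) ∈ O) ∧
      ∀ Q : MvPolynomial (Fin d) ℂ, Q ≠ 0 → O.valuation (algebraMap K M (aeval t Q)) = 1 := by
  let _ : Algebra ℂ O := ((algebraMap ℂ M).codRestrict O hC).toAlgebra
  have : IsScalarTower ℂ O M := .of_algebraMap_eq fun _ => rfl
  let S : Subalgebra ℂ (IsLocalRing.ResidueField O) :=
    { carrier := {y | ∃ (a : K) (h : algebraMap K M a ∈ O), IsLocalRing.residue O ⟨_, h⟩ = y}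
      mul_mem' := by
        rintro _ _ ⟨a, ha, rfl⟩ ⟨b, hb, rfl⟩
        exact ⟨a * b, map_mul (algebraMap K M) a b ▸ mul_mem ha hb,
          (congrArg _ (Subtype.ext (map_mul _ _ _))).trans (map_mul _ _ _)⟩
      add_mem' := by
        rintro _ _ ⟨a, ha, rfl⟩ ⟨b, hb, rfl⟩
        exact ⟨a + b, map_add (algebraMap K M) a b ▸ add_mem ha hb,
          (congrArg _ (Subtype.ext (map_add _ _ _))).trans (map_add _ _ _)⟩
      algebraMap_mem' := fun c => ⟨algebraMap ℂ K c, IsScalarTower.algebraMap_apply ℂ K M c ▸ hC c,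
        congrArg _ (Subtype.ext (IsScalarTower.algebraMap_apply ℂ K M c).symm)⟩ }
  have h1 := ((rb_iff O fun l => ⟨s l, hs l⟩).2 hi).cardinalMk_le_trdeg
  have h2 : Algebra.trdeg S (IsLocalRing.ResidueField O) ≤ 1 := by
    obtain ⟨ι, x, hx⟩ := exists_isTranscendenceBasis' S (IsLocalRing.ResidueField O)
    choose y hy using fun l => IsLocalRing.residue_surjective (x l)
    rw [← hx.cardinalMk_eq_trdeg]
    exact (rb_lift (K := K) (S := S) O (fun a h => ⟨⟨_, a, h, rfl⟩, rfl⟩) (x := y)
      (by rw [funext hy]; exact hx.1)).cardinalMk_le_trdeg.trans dim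
  obtain ⟨ι, x, hx⟩ := exists_isTranscendenceBasis' ℂ S
  rw [← trdeg_add_eq ℂ S, ← hx.cardinalMk_eq_trdeg, Cardinal.mk_fin, Nat.cast_succ] at h1
  have h3 := (Cardinal.add_one_le_add_one_iff.1 (h1.trans (add_le_add_right h2 _)))
  rw [← Cardinal.mk_fin] at h3
  obtain ⟨e⟩ := h3
  choose t ht h4 using fun l => (x (e l)).2
  refine ⟨t, ht, fun Q hQ => ?_⟩
  rw [← aeval_algebraMap_apply]
  refine (rb_iff O fun l => ⟨_, ht l⟩).1 ?_ Q hQ
  rw [funext h4]
  exact (hx.1.comp e e.injective).map' (f := S.val) Subtype.val_injective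

end Pool.Agent.Lib.MP_bc213e_ag.VK
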