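import Pool.Agent.Lib.MP_bc213e_ag.Hyp.Prime

/-! A valuation ring with principal maximal ideal and large residue field is divisorial. -/

namespace Pool.Agent.Lib.MP_bc213e_ag.VK

open Pool.Agent.Lib.MP_bc213e_ag.Hyp MvPolynomial

variable {K : Type} [Field K] [Algebra ℂ K] {d : ℕ}

theorem za_int (A : Subalgebra ℂ K) {r : K}
    (hr : ∀ V : ValuationSubring K, (∀ a ∈ A, a ∈ V) → r ∈ V) : IsIntegral A r := by
  have h1 : r ∈ (integralClosure (Subring.closure (A : Set K)) K).toSubring := by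
    rw [← iInf_valuationSubring_superset, Subring.mem_iInf]
    exact fun V => hr V.1 V.2
  rwa [show Subring.closure (A : Set K) = A.toSubring from Subring.closure_eq A.toSubring] at h1

theorem za_div {A : Subalgebra ℂ K} (z : K) (P : Polynomial A) :
    Polynomial.aeval z P.divX * z + P.coeff 0 = Polynomial.aeval z P := by
  have h := congrArg (Polynomial.aeval z) P.divX_mul_X_add
  rwa [map_add, map_mul, Polynomial.aeval_X, Polynomial.aeval_C] at h

theorem za_step {A : Subalgebra ℂ K} {z : K} {P : Polynomial A} {V : ValuationSubring K}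
    (hV : ∀ a ∈ A, a ∈ V) (h : Polynomial.aeval z P ∈ V) :
    Polynomial.aeval z P.divX ∈ V ∧ Polynomial.aeval z P.divX * z ∈ V := by
  have h1 : Polynomial.aeval z P.divX * z ∈ V :=
    eq_sub_of_add_eq (za_div z P) ▸ sub_mem h (hV _ (P.coeff 0).2)
  refine ⟨?_, h1⟩
  by_cases hz : z ∈ V
  · rw [Polynomial.aeval_eq_sum_range]
    exact sum_mem fun i _ => mul_mem (hV _ (P.divX.coeff i).2) (pow_mem hz i)
  · rw [← mul_inv_cancel_right₀ (fun e : z = 0 => hz (e ▸ zero_mem V)) (Polynomial.aeval z _)]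
    exact mul_mem h1 ((V.mem_or_inv_mem z).resolve_left hz)

/-- An algebraic element of a valuation ring is a quotient of integral elements. -/
theorem zar_frac (W : ValuationSubring K) (A : Subalgebra ℂ K) (hA : ∀ a ∈ A, a ∈ W) {z : K}
    (hz : z ∈ W) {P : Polynomial A} (h0 : Polynomial.aeval z P = 0)
    (h1 : ∃ i, W.valuation (P.coeff i) = 1) :
    ∃ s, W.valuation s = 1 ∧ IsIntegral A s ∧ IsIntegral A (s * z) := by
  obtain ⟨i, hi⟩ := h1
  have h : ∀ V : ValuationSubring K, (∀ a ∈ A, a ∈ V) →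
      Polynomial.aeval z P ∈ V ∧ Polynomial.aeval z P * z ∈ V := fun V _ => by simp [h0]
  clear h0
  induction i generalizing P with
  | succ i ih => exact ih (P.coeff_divX ▸ hi) fun V hV => za_step hV (h V hV).1
  | zero =>
    by_cases h2 : W.valuation (Polynomial.aeval z P) = 1
    · exact ⟨_, h2, za_int A fun V hV => (h V hV).1, za_int A fun V hV => (h V hV).2⟩
    refine ⟨Polynomial.aeval z P.divX, ?_, za_int A fun V hV => (za_step hV (h V hV).1).1,
      za_int A fun V hV => (za_step hV (h V hV).1).2⟩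
    by_contra h3
    refine hi.not_lt (eq_sub_of_add_eq' (za_div z P) ▸ W.valuation.map_sub_lt
      (((W.valuation_le_one_iff _).2 (h W hA).1).lt_of_ne h2) ?_)
    rw [map_mul]
    exact mul_lt_one_of_lt_of_le (((W.valuation_le_one_iff _).2
      (za_step hA (h W hA).1).1).lt_of_ne h3) ((W.valuation_le_one_iff _).2 hz)

theorem za_split (Q : MvPolynomial (Fin (d + 1)) ℂ) :
    ∃ Q₁ Q₀, Q = X 0 * Q₁ + rename Fin.succ Q₀ := by
  induction Q using MvPolynomial.induction_on with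
  | C a => exact ⟨0, C a, by simp⟩
  | add p q hp hq =>
    obtain ⟨a, b, rfl⟩ := hp
    obtain ⟨c, e, rfl⟩ := hq
    exact ⟨a + c, b + e, by rw [map_add]; ring⟩
  | mul_X p i hp =>
    refine Fin.cases ⟨p, 0, by simp [mul_comm]⟩ (fun l => ?_) i
    obtain ⟨a, b, rfl⟩ := hp
    exact ⟨a * X l.succ, b * X l, by rw [map_mul, rename_X]; ring⟩

theorem zar_val (W : ValuationSubring K) (hC : ∀ c : ℂ, algebraMap ℂ K c ∈ W) {π : K}
    (hπ : W.valuation π < 1) {t : Fin d → K} (ht : ∀ l, t l ∈ W)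
    (hi : ∀ Q : MvPolynomial (Fin d) ℂ, Q ≠ 0 → W.valuation (aeval t Q) = 1)
    {Q : MvPolynomial (Fin (d + 1)) ℂ} (hQ : ¬ X 0 ∣ Q) :
    W.valuation (aeval (Fin.cons π t : Fin (d + 1) → K) Q) = 1 := by
  obtain ⟨a, b, rfl⟩ := za_split Q
  have h1 := hi b fun e => hQ ⟨a, by rw [e, map_zero, add_zero]⟩
  have h2 : aeval (Fin.cons π t : Fin (d + 1) → K) a ∈ W :=
    eval₂_mem (fun _ _ => hC _) (Fin.cases ((W.valuation_le_one_iff _).1 hπ.le) ht)
  rw [map_add, map_mul, aeval_X, aeval_rename, ← h1]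
  refine W.valuation.map_add_eq_of_lt_right ?_
  rw [show (Fin.cons π t : Fin (d + 1) → K) ∘ Fin.succ = t from rfl, h1, map_mul]
  exact mul_lt_one_of_lt_of_le hπ ((W.valuation_le_one_iff _).2 h2)

theorem zar_poly {σ : Type} (i : σ) {P : Polynomial (MvPolynomial σ ℂ)} (h0 : P ≠ 0) :
    ∃ (e : ℕ) (P' : Polynomial (MvPolynomial σ ℂ)), P = Polynomial.C (X i ^ e) * P' ∧
      ∃ l, ¬ X i ∣ P'.coeff l := by
  obtain ⟨e, P', h1, h2⟩ := WfDvdMonoid.max_power_factor' h0 (x := Polynomial.C (X i))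
    fun h => X_prime.not_isUnit (Polynomial.isUnit_C.1 h)
  exact ⟨e, P', by rwa [map_pow], not_forall.1 (mt (Polynomial.C_dvd_iff_dvd_coeff _ _).2 h1)⟩

open scoped IntermediateField.algebraAdjoinAdjoin in
theorem zb_norm [Algebra.EssFiniteType ℂ K] {n : ℕ} {y : Fin n → K}
    (hy : IsTranscendenceBasis ℂ y) : ∃ A : Subalgebra ℂ K, A.FG ∧ IsNoetherianRing A ∧
      IsFractionRing A K ∧ ∀ a, a ∈ A ↔ IsIntegral (Algebra.adjoin ℂ (Set.range y)) a := by
  have i0 := hy.isAlgebraic_field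
  have i1 : Algebra.EssFiniteType (IntermediateField.adjoin ℂ (Set.range y)) K := .of_comp ℂ _ _
  have i2 : Module.Finite (IntermediateField.adjoin ℂ (Set.range y)) K :=
    Algebra.finite_of_essFiniteType_of_isAlgebraic
  have i3 := hy.1.aevalEquiv.toMulEquiv.uniqueFactorizationMonoid inferInstance
  have i5 : Algebra.FiniteType ℂ (Algebra.adjoin ℂ (Set.range y)) :=
    .adjoin_of_finite (Set.finite_range y)
  have i4 := Algebra.FiniteType.isNoetherianRing ℂ (Algebra.adjoin ℂ (Set.range y))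
  have i6 := IsIntegralClosure.finite (Algebra.adjoin ℂ (Set.range y))
    (IntermediateField.adjoin ℂ (Set.range y)) K
    (integralClosure (Algebra.adjoin ℂ (Set.range y)) K)
  have i7 : Algebra.FiniteType ℂ (integralClosure (Algebra.adjoin ℂ (Set.range y)) K) :=
    .trans i5 inferInstance
  exact ⟨(integralClosure (Algebra.adjoin ℂ (Set.range y)) K).restrictScalars ℂ,
    (Subalgebra.fg_iff_finiteType _).2 i7, @Algebra.FiniteType.isNoetherianRing ℂ _ _ _ _ i7 _,
    integralClosure.isFractionRing_of_finite_extension (IntermediateField.adjoin ℂ (Set.range y)) K,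
    fun _ => Iff.rfl⟩

theorem zariski [Algebra.EssFiniteType ℂ K] (dim : Algebra.trdeg ℂ K ≤ (d + 1 : ℕ))
    (W : ValuationSubring K) (hC : ∀ c : ℂ, algebraMap ℂ K c ∈ W) {π : K} (h0 : π ≠ 0)
    (hπ : W.valuation π < 1) (hg : ∀ a, W.valuation a < 1 → a / π ∈ W) {t : Fin d → K}
    (ht : ∀ l, t l ∈ W)
    (hi : ∀ Q : MvPolynomial (Fin d) ℂ, Q ≠ 0 → W.valuation (aeval t Q) = 1) :
    ∃ (A : Subalgebra ℂ K) (w : Val K), A.FG ∧ PrimeDiv A w ∧ ∀ z, w z ≤ 1 ↔ z ∈ W := by
  have hv := @zar_val K _ _ d W hC π hπ t ht hi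
  set y : Fin (d + 1) → K := Fin.cons π t with hy
  have h1 : AlgebraicIndependent ℂ y := algebraicIndependent_iff.2 fun Q hQ => by
    by_contra hn
    obtain ⟨e, P, e1, l, hl⟩ := zar_poly 0 (Polynomial.C_ne_zero.2 hn)
    have e2 : aeval y ((Polynomial.C Q).coeff l) =
        aeval y ((Polynomial.C (X 0 ^ e) * P).coeff l) := by rw [e1]
    rw [Polynomial.coeff_C_mul, map_mul, map_pow, aeval_X, Polynomial.coeff_C, apply_ite (aeval y),
      hQ, map_zero, ite_self] at e2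
    have := hv hl
    rw [(mul_eq_zero.1 e2.symm).resolve_left (pow_ne_zero _ h0), map_zero] at this
    exact zero_ne_one this
  have h2 := h1.isTranscendenceBasis_of_trdeg_le_of_finite (by simpa using dim)
  obtain ⟨A, hA, i1, i2, hm⟩ := zb_norm h2
  have h3 : ∀ a ∈ Algebra.adjoin ℂ (Set.range y), a ∈ W := fun a ha =>
    Algebra.adjoin_induction (by
      rintro _ ⟨i, rfl⟩
      exact Fin.cases ((W.valuation_le_one_iff _).1 hπ.le) ht i) hC
      (fun _ _ _ _ => add_mem) (fun _ _ _ _ => mul_mem) ha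
  have h4 : ∀ a ∈ A, a ∈ W := fun a ha => by
    have := ((hm a).1 ha).map_of_comp_eq
      ((algebraMap (Algebra.adjoin ℂ (Set.range y)) K).codRestrict W fun x => h3 x x.2)
      (RingHom.id K) rfl
    obtain ⟨b, rfl⟩ := IsIntegrallyClosed.algebraMap_eq_of_integral this
    exact b.2
  have h5 : ∀ z ∈ W, ∃ s ∈ A, W.valuation s = 1 ∧ s * z ∈ A := fun z hz => by
    obtain ⟨P, p0, p1⟩ := h2.isAlgebraic.isAlgebraic z
    let e := h1.aevalEquiv.toRingEquiv
    obtain ⟨k, P', e1, l, hl⟩ := zar_poly 0 ((Polynomial.map_ne_zero_iff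
      (f := e.symm.toRingHom) e.symm.injective).2 p0)
    have e2 := congrArg (Polynomial.map e.toRingHom) e1
    rw [Polynomial.map_map, e.toRingHom_comp_symm_toRingHom, Polynomial.map_id,
      Polynomial.map_mul, Polynomial.map_C] at e2
    rw [e2, map_mul, Polynomial.aeval_C, mul_eq_zero] at p1
    obtain ⟨s, s1, s2, s3⟩ := zar_frac W _ h3 hz (p1.resolve_left fun h => h0 (by
      have : aeval y (X 0 ^ k : MvPolynomial _ ℂ) = 0 := h
      rw [map_pow, aeval_X] at this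
      exact eq_zero_of_pow_eq_zero this)) ⟨l, by rw [Polynomial.coeff_map]; exact hv hl⟩
    exact ⟨s, (hm _).2 s2, s1, (hm _).2 s3⟩
  let 𝔭 : Ideal A := (IsLocalRing.maximalIdeal W).comap
    ((algebraMap A K).codRestrict W fun x => h4 x x.2)
  have hp : ∀ a : A, a ∈ 𝔭 ↔ W.valuation a < 1 := fun a => W.valuation_lt_one_iff _
  have hπA : π ∈ A := (hm π).2 (isIntegral_algebraMap (R := Algebra.adjoin ℂ (Set.range y))
    (x := ⟨π, Algebra.subset_adjoin ⟨0, rfl⟩⟩))
  obtain ⟨w, w1, w2⟩ := primeDiv_of_principal 𝔭 ⟨π, hπA⟩ ((hp _).2 hπ)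
    (fun h => h0 (congrArg Subtype.val h)) fun a ha => by
      obtain ⟨s, s1, s2, s3⟩ := h5 _ (hg a ((hp a).1 ha))
      exact ⟨⟨s, s1⟩, fun h => ((hp _).1 h).ne s2, ⟨_, s3⟩, Subtype.ext (by
        push_cast; field_simp)⟩
  have h6 : ∀ s ∈ A, w s = 1 ↔ W.valuation s = 1 := fun s hs => by
    rw [← (w1.2.1 s hs).not_lt_iff_eq, ← ((W.valuation_le_one_iff _).2 (h4 s hs)).not_lt_iff_eq]
    exact ((w2 ⟨s, hs⟩).trans (hp _)).not
  refine ⟨A, w, hA, w1, fun z => ⟨fun hz => ?_, fun hz => ?_⟩⟩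
  · obtain ⟨s, s1, s2, s3⟩ := w1.2.2 z hz
    have := (W.valuation_le_one_iff _).2 (h4 _ s3)
    rwa [map_mul, (h6 s s1).1 s2, one_mul, W.valuation_le_one_iff] at this
  · obtain ⟨s, s1, s2, s3⟩ := h5 z hz
    have := w1.2.1 _ s3
    rwa [map_mul, (h6 s s1).2 s2, one_mul] at this

end Pool.Agent.Lib.MP_bc213e_ag.VK
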