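import Pool.Agent.Lib.MP_bc213e_ag.VK.Norm
import Pool.Agent.Lib.MP_bc213e_ag.VK.Chain
import Pool.Agent.Lib.MP_bc213e_ag.VK.Zar
import Pool.Agent.Lib.MP_bc213e_ag.VK.Res
import Pool.Agent.Lib.MP_bc213e_ag.DC.Car

/-! The generic fibre is klt. -/

namespace Pool.Agent.Lib.MP_bc213e_ag.DD

open Pool.Agent.Lib.MP_bc213e_ag.Hyp
open Pool.Agent.Lib.MP_4287a9_ag (exists_ordO wv1_ne)

theorem kl_det {M κ : Type} [Field M] [Fintype κ] [DecidableEq κ] (O : ValuationSubring M)
    {A : Matrix κ κ M} (h : ∀ a c, A a c ∈ O) : A.det ∈ O := by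
  rw [Matrix.det_apply']
  exact sum_mem fun _ _ => mul_mem (intCast_mem O _) (prod_mem fun _ _ => h _ _)

theorem kl_log {k M : Type} [CommRing k] [Field M] [Algebra k M] {O : ValuationSubring M}
    (hO : IsDiscreteValuationRing O) {π : O} (hπ : Irreducible π) (D : Derivation k M M)
    (hD : ∀ f ∈ O, D f ∈ O) (f : M) : D f * (π / f) ∈ O := by
  rcases eq_or_ne f 0 with rfl | h0
  · simp
  obtain ⟨e, -, h1, h2⟩ := exists_ordO hO hπ h0
  have h3 := wv1_ne hπ
  have h4 : f * (π : M) ^ (-e) ≠ 0 := mul_ne_zero h0 (zpow_ne_zero _ h3)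
  generalize hε : f * (π : M) ^ (-e) = ε at h1 h2 h4
  obtain rfl : f = ε * (π : M) ^ e := by
    rw [← hε, mul_assoc, ← zpow_add₀ h3, neg_add_cancel, zpow_zero, mul_one]
  have e1 : D (ε * (π : M) ^ e) * (π / (ε * (π : M) ^ e)) = e * D π + π * (D ε * ε⁻¹) := by
    have := zpow_ne_zero e h3
    rw [Derivation.leibniz, Derivation.leibniz_zpow, zpow_sub_one₀ h3]
    simp only [smul_eq_mul, zsmul_eq_mul]
    field_simp
  rw [e1]
  exact add_mem (mul_mem (intCast_mem O e) (hD _ π.2)) (mul_mem π.2 (mul_mem (hD _ h1) h2))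

theorem kl_irr {M : Type} [Field M] {O : ValuationSubring M} (hO : IsDiscreteValuationRing O)
    {π : O} (hπ : Irreducible π) :
    O.valuation π < 1 ∧ ∀ a, O.valuation a < 1 → a / π ∈ O := by
  refine ⟨(O.valuation_lt_one_iff π).1 hπ.not_isUnit, fun a ha => ?_⟩
  have h1 := (O.valuation_lt_one_iff ⟨a, (O.valuation_le_one_iff a).1 ha.le⟩).2 ha
  rw [hπ.maximalIdeal_eq, Ideal.mem_span_singleton'] at h1
  obtain ⟨c, hc⟩ := h1
  rw [show a = c * π from (congrArg Subtype.val hc).symm, mul_div_cancel_right₀ _ (wv1_ne hπ)]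
  exact c.2

namespace Geo

variable {K M ι : Type} [Field K] [Algebra ℂ K] [Field M] [Algebra ℂ M] [Algebra K M] {n : ℕ}
  {S : Su K M ι n} {Ω E : Type} [Field Ω] [Algebra ℂ Ω] [Field E] [Algebra ℂ E] [Algebra Ω E]
  [IsScalarTower ℂ Ω E] {b φ : ℕ} (G : Geo S Ω E b φ) [IsScalarTower ℂ K M] [Fintype ι]
  [IsAlgClosed Ω]

/-- The restriction of the valuation to `K` has positive log discrepancy. -/
theorem klt_res {d₀ : ℕ} (hk : S.VK d₀) (hb : d₀ + 2 ≤ b) {j : ι} {O : ValuationSubring M}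
    (hO : IsDiscreteValuationRing O) (hle : ∀ f ∈ G.Dk j, f ∈ O) {s : Fin n → M}
    (hs : ∀ l, s l ∈ O)
    (hi : ∀ Q : MvPolynomial (Fin n) ℂ, Q ≠ 0 → O.valuation (MvPolynomial.aeval s Q) = 1)
    (h : ∃ a : K, algebraMap K M a ∉ O) :
    ∃ (u : Fin n → K) (a : Fin n), (∀ l, algebraMap K M (u l) ∈ O) ∧ jac S.D u ≠ 0 ∧
      O.valuation (algebraMap K M (u a)) ^ S.m <
        O.valuation (algebraMap K M (jac S.D u ^ S.m / S.g j)) := by
  obtain ⟨d, rfl⟩ : ∃ d, n = d + 1 := ⟨n - 1, by have := G.card; omega⟩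
  have hC : ∀ c : ℂ, algebraMap ℂ M c ∈ O := fun c => hle _ (G.k_le_Dk j (algebraMap_mem _ c))
  obtain ⟨π, π0, π1, π2⟩ := VK.res_gen O hO h
  obtain ⟨t, t1, t2⟩ := VK.res_indep (K := K)
    (by simpa using S.u_basis.cardinalMk_eq_trdeg.ge) O hC hs hi
  have : Algebra.EssFiniteType ℂ K := (Algebra.essFiniteType_iff_exists_subalgebra ℂ K).2
    ⟨chart S.x j, _, (Subalgebra.fg_iff_finiteType _).1
      (Subalgebra.fg_def.2 ⟨_, Set.finite_range _, rfl⟩), S.frac j⟩
  obtain ⟨A, w, hA, hw, e⟩ := VK.zariski (d := d)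
    (by simpa using S.hτ.cardinalMk_eq_trdeg.ge) (O.comap (algebraMap K M))
    (fun c => by rw [ValuationSubring.mem_comap, ← IsScalarTower.algebraMap_apply]; exact hC c)
    π0 π1 π2 t1 fun Q hQ => (VK.res_val O _).1.2 (t2 Q hQ)
  have e' : w.IsEquiv (O.valuation.comap (algebraMap K M)) :=
    Valuation.isEquiv_iff_val_le_one.2 fun {z} => (e z).trans (O.valuation_le_one_iff _).symm
  obtain ⟨ev, hev⟩ := G.exists_centre O hle
  obtain ⟨u, a, u1, u2, u3⟩ := hk j _ (RingHom.ker_isPrime ((G.ez ev).comp (S.inB j)))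
    (not_le.1 fun h => by
      have h1 : (b : Cardinal) ≤ (d₀ + 1 : ℕ) := by
        rw [Nat.cast_succ]
        exact (G.dim_pt ev).trans (by gcongr)
      have h2 := Nat.cast_le.1 h1
      omega) A w hA hw (fun r => (e r).2 (hle _ (G.B_le_Dk (S.inB j r).2))) fun r hr =>
    e'.eq_one_iff_eq_one.2 (le_antisymm
      ((O.valuation_le_one_iff _).2 (hle _ (G.B_le_Dk (S.inB j r).2)))
      (not_lt.1 fun h => hr ((hev (S.inB j r)).2 h)))
  refine ⟨u, a, fun l => (e _).1 (u1 l), u2, ?_⟩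
  have u4 := e'.lt_one_iff_lt_one.1 (u3.trans_lt (by
    rw [← WithZero.exp_zero, WithZero.exp_lt_exp]
    omega))
  have u5 : 0 < O.valuation (algebraMap K M (jac S.D u ^ S.m / S.g j)) := by
    rw [zero_lt_iff, Valuation.ne_zero_iff, map_ne_zero]
    exact div_ne_zero (pow_ne_zero _ u2) (S.g j).ne_zero
  rw [← div_lt_one₀ u5, ← map_pow, ← map_pow, ← map_div₀, ← map_div₀, div_div_eq_mul_div,
    mul_comm]
  exact u4

theorem klt_div {d₀ : ℕ} (hk : S.VK d₀) (hb : d₀ + 2 ≤ b) {j : ι} {O : ValuationSubring M}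
    (hO : IsDiscreteValuationRing O) (hle : ∀ f ∈ G.Dk j, f ∈ O) {z : Fin φ → M}
    {D : Fin b ⊕ Fin φ → Derivation ℂ M M} {l₀ : Fin φ} {π : O} (hπ : Irreducible π)
    (h0 : z l₀ = π) (hz : ∀ c, z c ∈ O) (hF : Frame (Sum.elim G.y z) D)
    (hD : ∀ c, ∀ f ∈ O, D c f ∈ O) : O.valuation π ^ S.m < O.valuation (G.mz z) := by
  obtain ⟨π1, π2⟩ := kl_irr hO hπ
  have hv : S.v j ∈ O := hle _ (G.B_le_Dk (S.v_mem j))
  have hv1 : O.valuation (S.v j) = 1 := by
    have h1 := (O.valuation_le_one_iff _).2 (hle _ (G.v_inv_Dk j))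
    rw [map_inv₀, inv_le_one₀ (zero_lt_iff.2 ((Valuation.ne_zero_iff _).2 (S.v_ne j)))] at h1
    exact le_antisymm ((O.valuation_le_one_iff _).2 hv) h1
  have key : ∀ u : Fin n → K, O.valuation (algebraMap K M (jac S.D u ^ S.m / S.g j)) =
      O.valuation (G.mz z) * O.valuation (Matrix.of fun a c => D (G.ε a)
        (Option.elim c (S.v j) fun l => algebraMap K M (u l))).det ^ S.m := fun u => by
    have := congrArg O.valuation ((S.mu_v j u).symm.trans (S.mu_chain (hF.equiv G.ε) _))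
    rwa [map_mul, map_pow, hv1, one_pow, mul_one, map_mul, map_pow] at this
  by_cases h : ∃ a : K, algebraMap K M a ∉ O
  · have hT : ∀ c, Sum.elim G.y z c ∈ O := by
      rintro (i | c)
      exacts [hle _ (G.k_le_Dk j (G.y_mem i)), hz c]
    let σ : Fin n → Fin b ⊕ Fin φ := fun l => Equiv.swap (G.ε none) (Sum.inr l₀) (G.ε (some l))
    obtain ⟨u, a, u1, u2, u3⟩ := G.klt_res hk hb hO hle (s := Sum.elim G.y z ∘ σ)
      (fun l => hT _) (fun Q hQ => hF.res_indep O
        (fun c => hle _ (G.k_le_Dk j (algebraMap_mem _ c))) hT hD (c₀ := Sum.inr l₀)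
        (by rwa [Sum.elim_inr, h0]) (by rwa [Sum.elim_inr, h0])
        (fun _ _ e => Option.some_injective _ (G.ε.injective ((Equiv.swap _ _).injective e)))
        (fun l e => Option.some_ne_none _ (G.ε.injective ((Equiv.swap _ _).injective
          (e.trans (Equiv.swap_apply_left _ _).symm)))) hQ) h
    have ua : 0 < O.valuation (algebraMap K M (u a)) := by
      rw [zero_lt_iff, Valuation.ne_zero_iff, map_ne_zero]
      exact fun e => u2 (Matrix.det_eq_zero_of_column_eq_zero a fun i => by simp [e])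
    rw [key] at u3
    generalize hA : (Matrix.of fun a c => D (G.ε a)
      (Option.elim c (S.v j) fun l => algebraMap K M (u l))) = A at u3
    have h2 := (O.valuation_le_one_iff _).2 (kl_det O (A := A.updateCol (some a)
      ((π / algebraMap K M (u a)) • fun r => A r (some a))) fun r c => by
      subst hA
      rcases eq_or_ne c (some a) with rfl | hc
      · rw [Matrix.updateCol_self, Pi.smul_apply, smul_eq_mul, mul_comm]
        exact kl_log hO hπ _ (hD _) _
      · rw [Matrix.updateCol_ne hc]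
        exact hD _ _ (by cases c; exacts [hv, u1 _]))
    rw [Matrix.det_updateCol_smul, Matrix.updateCol_eq_self, map_mul, map_div₀, div_mul_eq_mul_div,
      div_le_one₀ ua] at h2
    refine lt_of_mul_lt_mul_right' (a := O.valuation A.det ^ S.m) (lt_of_le_of_lt ?_ u3)
    rw [← mul_pow]
    exact pow_le_pow_left' h2 _
  · push Not at h
    have h1 := key S.τ
    rw [show jac S.D S.τ = 1 by
      rw [jac, show (Matrix.of fun a c => S.D a (S.τ c)) = 1 from Matrix.ext fun a c => S.hD a c,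
        Matrix.det_one], one_pow] at h1
    have h2 := (O.valuation_le_one_iff _).2 (h (S.g j))
    have h3 := (O.valuation_le_one_iff _).2 (kl_det O (A := Matrix.of fun a c => D (G.ε a)
      (Option.elim c (S.v j) fun l => algebraMap K M (S.τ l))) fun r c =>
      hD _ _ (by cases c; exacts [hv, h _]))
    refine (pow_lt_one₀ zero_le π1 S.mpos).trans_le (le_trans ?_ (h1.trans_le
      (mul_le_of_le_one_right' (pow_le_one' h3 _))))
    rw [one_div, map_inv₀, map_inv₀, one_le_inv₀ (by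
      rw [zero_lt_iff, Valuation.ne_zero_iff, map_ne_zero]
      exact (S.g j).ne_zero)]
    exact h2

end Geo

end Pool.Agent.Lib.MP_bc213e_ag.DD
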