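import Pool.Agent.Lib.MP_4287a9_ag.WGc
import Pool.Agent.Lib.MP_4287a9_ag.WVb

/-! The log canonical threshold of a function on a klt pair is positive. -/

namespace Pool.Agent.Lib.MP_bc213e_ag.VK

open Pool.Agent.Lib.MP_4287a9_ag Pool.Agent.Lib.MP_4287a9_ag.Res

theorem lc_dvd {B ι κ : Type} [CommMonoid B] [Fintype ι] [Fintype κ] (lam : ι → Option κ)
    (h : ∀ i i' l, lam i = some l → lam i' = some l → i = i') (y : κ → B) :
    ∏ i, (lam i).elim 1 y ∣ ∏ l, y l := by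
  classical
  rw [← Finset.prod_filter_of_ne (p := fun i => lam i ≠ none) fun i _ hi e => hi (by rw [e]; rfl),
    ← Finset.prod_image (g := lam) (f := fun o => o.elim 1 y) fun i hi i' _ e => by
      obtain ⟨l, hl⟩ := Option.ne_none_iff_exists'.1 (Finset.mem_filter.1 hi).2
      exact h i i' l hl (e ▸ hl)]
  exact (Finset.prod_dvd_prod_of_subset _ _ _ (Finset.subset_univ _)).trans
    (by rw [Fintype.prod_option]; simp)

section

variable {F L : Type} [CommRing F] [CommRing L] [Algebra F L] {μ : ℕ} {B : Subalgebra F L}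
  {t : Fin μ → Lˣ} {x x' : L} {e e' : Fin μ → ℤ}

/-- `x` is a multiple of the monomial `t ^ e`. -/
def LcP (B : Subalgebra F L) (t : Fin μ → Lˣ) (x : L) (e : Fin μ → ℤ) : Prop :=
  ∃ β ∈ B, x = β * (∏ i, t i ^ e i : Lˣ)

theorem LcP.mul (h : LcP B t x e) (h' : LcP B t x' e') : LcP B t (x * x') (e + e') := by
  obtain ⟨β, h1, rfl⟩ := h
  obtain ⟨β', h2, rfl⟩ := h'
  refine ⟨_, mul_mem h1 h2, ?_⟩
  simp only [Pi.add_apply, zpow_add, Finset.prod_mul_distrib, Units.val_mul]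
  ring

theorem LcP.of_mem (h : x ∈ B) : LcP B t x 0 := ⟨x, h, by simp⟩

theorem LcP.pow (h : LcP B t x e) (N : ℕ) : LcP B t (x ^ N) (N • e) := by
  induction N with
  | zero => simpa using LcP.of_mem (one_mem B)
  | succ N ih => simpa only [pow_succ, succ_nsmul] using ih.mul h

theorem LcP.mem (h : LcP B t x e) (ht : ∀ i, (t i : L) ∈ B) (he : ∀ i, 0 ≤ e i) : x ∈ B := by
  obtain ⟨β, h1, rfl⟩ := h
  rw [Units.coe_prod]
  refine mul_mem h1 (prod_mem fun i _ => ?_)
  rw [← Int.toNat_of_nonneg (he i), zpow_natCast, Units.val_pow_eq_pow_val]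
  exact pow_mem (ht i) _

theorem LcP.of_as {v : Lˣ} (h : As B v (∏ i, t i ^ e i)) :
    LcP B t v e ∧ LcP B t (v⁻¹ : Lˣ) (-e) :=
  ⟨⟨_, h.1, by rw [← Units.val_mul, inv_mul_cancel_right]⟩, _, h.2, by
    simp only [Pi.neg_apply, zpow_neg, Finset.prod_inv_distrib]
    rw [← Units.val_mul, mul_inv_cancel_comm]⟩

end

section

variable {F K : Type} [Field F] [Field K] [Algebra F K] {n : ℕ} {S' : Subalgebra F K}
  {z : Fin n → K} (h : EtC S' z) {O : ValuationSubring K} (hO : IsDiscreteValuationRing O)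
  (hle : ∀ a ∈ S', a ∈ O) (hloc : ∀ w ∈ O, ∃ b ∈ S', b ≠ 0 ∧ b⁻¹ ∈ O ∧ b * w ∈ S') {π : O}
  (hπ : Irreducible π) {l₀ : Fin n} (h0 : z l₀ = π)

include h hO hle hloc hπ h0

theorem lc_log (κ : K) : ∃ c : Fin n → K, (∀ l, c l ∈ O) ∧ ∀ D : Derivation F K K,
    D κ = (∑ l, (if l = l₀ then (π : K)⁻¹ else 1) * D (z l) * c l) * κ := by
  rcases eq_or_ne κ 0 with rfl | hκ
  · exact ⟨0, fun _ => zero_mem O, by simp⟩
  obtain ⟨e, -, h1, h2⟩ := exists_ordO hO hπ hκ
  have h3 := wv1_ne hπ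
  have h4 : κ * (π : K) ^ (-e) ≠ 0 := mul_ne_zero hκ (zpow_ne_zero _ h3)
  generalize hε : κ * (π : K) ^ (-e) = ε at h1 h2 h4
  obtain rfl : κ = ε * (π : K) ^ e := by
    rw [← hε, mul_assoc, ← zpow_add₀ h3, neg_add_cancel, zpow_zero, mul_one]
  obtain ⟨c, hc, hc'⟩ := wva_chain h hle hloc h1
  refine ⟨fun l => if l = l₀ then e + π * (c l * ε⁻¹) else c l * ε⁻¹, fun l => ?_, fun D => ?_⟩
  · beta_reduce
    split_ifs
    exacts [add_mem (intCast_mem O e) (mul_mem π.2 (mul_mem (hc l) h2)), mul_mem (hc l) h2]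
  · have e1 : ∀ l, (if l = l₀ then (π : K)⁻¹ else 1) * D (z l) *
        (if l = l₀ then e + π * (c l * ε⁻¹) else c l * ε⁻¹) =
        D (z l) * c l * ε⁻¹ + if l = l₀ then e * D π * (π : K)⁻¹ else 0 := fun l => by
      split_ifs with hl
      · rw [hl, h0]
        field_simp
        ring
      · ring
    simp only [e1]
    rw [Finset.sum_add_distrib, ← Finset.sum_mul, ← hc', Finset.sum_ite_eq' _ l₀,
      if_pos (Finset.mem_univ _), Derivation.leibniz, Derivation.leibniz_zpow, zpow_sub_one₀ h3]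
    simp only [smul_eq_mul, zsmul_eq_mul]
    field_simp
    ring

theorem lc_det (D : Fin n → Derivation F K K) {ρ : ℕ} {y : Fin (n + ρ) → LA K ρ}
    (hy : ∀ l, IsHom (y l)) : ∃ o ∈ O,
      (Matrix.of fun i l => amb D (id : Fin ρ → Fin ρ) i (y l)).det =
        (∏ l, y l) * algebraMap K (LA K ρ) (jac D z / π * o) := by
  choose γ hγ using hy
  choose c hc hc' using lc_log h hO hle hloc hπ h0
  let q : Matrix (Fin n ⊕ Fin ρ) (Fin n ⊕ Fin ρ) K := Matrix.of fun i l =>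
    Sum.elim (c ((y (finSumFinEquiv l)).coeff (γ (finSumFinEquiv l))))
      (fun i => γ (finSumFinEquiv l) i) i
  let P : Matrix (Fin n ⊕ Fin ρ) (Fin n ⊕ Fin ρ) K := Matrix.fromBlocks
    (Matrix.of fun i l => (if l = l₀ then (π : K)⁻¹ else 1) * D i (z l)) 0 0 1
  have hP : P.det = jac D z / π := by
    rw [Matrix.det_fromBlocks_zero₂₁, Matrix.det_one, mul_one]
    refine (Matrix.det_mul_row _ (Matrix.of fun i l => D i (z l))).trans ?_
    rw [Finset.prod_ite_eq' _ l₀, if_pos (Finset.mem_univ _), div_eq_inv_mul, jac]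
  refine ⟨q.det, ?_, ?_⟩
  · rw [Matrix.det_apply']
    refine sum_mem fun σ _ => mul_mem (intCast_mem _ _) (prod_mem fun l _ => ?_)
    rcases σ l with i | i
    exacts [hc _ _, intCast_mem _ _]
  · rw [← hP, ← Matrix.det_mul, RingHom.map_det, ← Matrix.det_submatrix_equiv_self finSumFinEquiv,
      ← Equiv.prod_comp finSumFinEquiv, ← Matrix.det_mul_row]
    congr 1
    ext1 i l
    have hal : ∀ x : K, algebraMap K (LA K ρ) x = AddMonoidAlgebra.single 0 x := fun x => rfl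
    simp only [Matrix.submatrix_apply, Matrix.of_apply, RingHom.mapMatrix_apply, Matrix.map_apply]
    rw [resDiv_single (hγ (finSumFinEquiv l)), hal, AddMonoidAlgebra.single_mul_single, add_zero]
    rcases i with i | i
    · rw [finSumFinEquiv_apply_left, amb, Fin.append_left, aD_single, hc', mul_comm]
      simp [P, q, Matrix.mul_apply]
    · rw [finSumFinEquiv_apply_right, amb, Fin.append_right, aD_single, degK_apply, mul_comm]
      simp [P, q, Matrix.mul_apply, Matrix.one_apply]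

end

variable {F R K : Type} [Field F] [CharZero F] [CommRing R] [IsDomain R] [Algebra F R] [Field K]
  [Algebra F K] [Algebra R K] [IsScalarTower F R K] [IsFractionRing R K] [Algebra.FiniteType F R]
  {n : ℕ}

theorem exists_lct [IsIntegrallyClosed R] {c : CD F R K n} {𝔡 : Ideal R} {r : ℕ}
    (hc : c.Good 𝔡 r) (hr : 0 < r) (hV : c.VK r ⊤ 0) {h : R} (h0 : h ≠ 0) :
    ∃ C : ℕ, ∀ (S : Finset K) (O : ValuationSubring K), IsDiv R S O →
      (ordS O {algebraMap R K h} : ℝ) ≤ C * ldisc c.D c.u (r * c.M) O := by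
  have hh : algebraMap R K h ≠ 0 := (map_ne_zero_iff _ (IsFractionRing.injective R K)).2 h0
  obtain ⟨u₁, u₂, d, h₁, h₂, hu, hd⟩ := hc.exists_out (𝔞 := Ideal.span {h})
    (by rwa [Ne, Ideal.span_singleton_eq_bot])
  set N := r * c.M with hN
  have hN0 : (0 : ℝ) < N := Nat.cast_pos.2 (Nat.mul_pos hr hc.hM)
  have hi : ∀ i, (d.af 1 i : ℤ) - d.af 2 i < N * d.aj i := fun i => by
    have := wg_ineq hc (t := 0) (fun S O hO => by simpa using hV S O hO) h₁ h₂ hu hd i
    rw [NNReal.coe_zero, zero_mul, sub_pos, ← hN, div_lt_iff₀ hN0, mul_comm] at this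
    exact_mod_cast this
  set C := ∑ i, d.af 0 i with hC
  refine ⟨C * N, fun S O hO => ?_⟩
  obtain ⟨e, z, l₀, π, he, he0, he1, hz, hπ, hz0⟩ := hO.exists_chart hc.hint hc.dual
  have hS : ∀ a ∈ (S : Set K) ∪ {e⁻¹}, a ∈ O := fun a ha =>
    ha.elim (fun ha => hO.2.1 a (Algebra.subset_adjoin ha)) fun ha => ha ▸ he1
  have hJ := hO.ordS_jacs hc.dual (fun a ha => Algebra.subset_adjoin (Or.inr (Or.inl ha))) hS hz
  have hJ0 := jac_ne_zero hc.dual hz
  have hπ0 := wv1_ne hπ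
  obtain ⟨a, ha⟩ := hd.cover O hO.base
  obtain ⟨o, ho, hdet⟩ := lc_det hz hO.1 (fun w hw => by
    rw [wvb_ch] at hw
    induction hw using Algebra.adjoin_induction with
    | mem w hw => exact hS w hw
    | algebraMap w => exact hO.base w
    | add w w' _ _ ih ih' => exact add_mem ih ih'
    | mul w w' _ _ ih ih' => exact mul_mem ih ih')
    (fun w hw => by
      obtain ⟨s, s1, s2, s3, s4⟩ := hO.2.2 w hw
      exact ⟨s, (wvb_ch _ _).2 (Algebra.adjoin_mono Set.subset_union_left s1), s2, s3,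
        (wvb_ch _ _).2 (Algebra.adjoin_mono Set.subset_union_left s4)⟩) hπ hz0 c.D (hd.dy a)
  have h3 := hd.hdet a
  rw [hdet, ← mul_assoc] at h3
  set ι := algebraMap K (LA K d.ρ) with hι
  have ho0 : jac c.D z / π * o ≠ 0 := fun e => by
    rw [e, map_zero, mul_zero] at h3
    exact zero_ne_one h3
  have ht : ∀ i, (d.t a i : LA K d.ρ) ∈ d.B a := fun i => by
    rw [hd.ht]
    cases d.lam a i
    exacts [one_mem _, (hd.het a).mem _]
  have p1 : LcP (d.B a) (d.t a) (ι (jac c.D z / π * o)⁻¹) fun i => d.aj i := by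
    obtain ⟨β, hβ⟩ := lc_dvd (d.lam a) (hd.hinj a) fun l => (⟨_, (hd.het a).mem l⟩ : d.B a)
    have h4 : LcP (d.B a) (d.t a) (∏ l, d.y a l) 1 := ⟨β, β.2, by
      have := congrArg Subtype.val hβ
      simp only [MulMemClass.coe_mul, SubmonoidClass.coe_finsetProd] at this
      rw [this, mul_comm, Units.coe_prod]
      refine congrArg _ (Finset.prod_congr rfl fun i _ => ?_)
      rw [Pi.one_apply, zpow_one, hd.ht]
      cases d.lam a i <;> rfl⟩
    have h5 := (LcP.of_as (hd.hj a)).1.mul h4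
    rw [← mul_one (_ * _), ← map_one ι, ← mul_inv_cancel₀ ho0, map_mul, ← mul_assoc, h3,
      one_mul] at h5
    rwa [show (fun i => (d.aj i : ℤ) - 1) + 1 = fun i => (d.aj i : ℤ) from
      funext fun i => sub_add_cancel _ _] at h5
  have p2 : ∀ (j : Fin 3) (g : R), algebraMap R K g ≠ 0 →
      ![Ideal.span {h}, Ideal.span {u₁}, Ideal.span {u₂}] j = Ideal.span {g} →
      LcP (d.B a) (d.t a) (ι (algebraMap R K g)) (fun i => d.af j i) ∧
      LcP (d.B a) (d.t a) (ι (algebraMap R K g)⁻¹) (-fun i => (d.af j i : ℤ)) := fun j g hg e => by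
    obtain ⟨h4, h5⟩ := LcP.of_as (e := fun i => d.af j i) (v := d.fu a j)
      (by simpa only [zpow_natCast] using hd.hf a j)
    have h6 := (LcP.of_mem (hd.fgen a j g (e ▸ Ideal.mem_span_singleton_self g))).mul h4
    obtain ⟨s, hs⟩ := Ideal.mem_span_singleton'.1 (e ▸ hd.fmem a j)
    have h7 := (LcP.of_mem (hd.base a s)).mul h5
    rw [zero_add, Units.inv_mul_cancel_right] at h6
    refine ⟨h6, ?_⟩
    rwa [zero_add, show inL R K d.ρ s * ((d.fu a j)⁻¹ : (LA K d.ρ)ˣ) = ι (algebraMap R K g)⁻¹ by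
      rw [Units.mul_inv_eq_iff_eq_mul, hd.hfu, ← hs, map_mul, mul_left_comm]
      change _ = _ * (ι _ * ι (algebraMap R K g))
      rw [← map_mul, inv_mul_cancel₀ hg, map_one, mul_one]] at h7
  have p3 := ((((p1.pow N).mul (p2 2 u₂ h₂ rfl).1).mul (p2 1 u₁ h₁ rfl).2).pow C).mul
    (p2 0 h hh rfl).2
  rw [← map_pow, ← map_mul, ← map_mul, ← map_pow, ← map_mul] at p3
  have p4 := mul_mem (ha _ (p3.mem ht fun i => by
    have h4 := hi i
    have h5 : (d.af 0 i : ℤ) ≤ C := by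
      exact_mod_cast Finset.single_le_sum (fun _ _ => Nat.zero_le _) (Finset.mem_univ i)
    simp only [Pi.add_apply, Pi.smul_apply, Pi.neg_apply]
    simp only [nsmul_eq_mul]
    nlinarith [Int.natCast_nonneg C])) (pow_mem (pow_mem ho N) C)
  have hl : ((π : K) / jac c.D z) ^ N / c.u ≠ 0 :=
    div_ne_zero (pow_ne_zero _ (div_ne_zero hπ0 hJ0)) hc.hu
  have p5 := (ordS_le_iff hO.1 hh (pow_ne_zero C hl)).2 (by
    have := right_ne_zero_of_mul ho0
    rw [← hu]
    refine Eq.mp (congrArg (· ∈ O) ?_) p4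
    rw [mul_right_comm, ← mul_pow, div_eq_mul_inv _ (algebraMap R K h)]
    congr 2
    rw [mul_right_comm, mul_right_comm _ _ (o ^ N), ← mul_pow]
    field_simp)
  have e1 : ordS O {(π : K)} = 1 := ordS_eq_of_unit hO.1 hπ hπ0
    (by simp [hπ0]) (by simp [hπ0])
  rw [← zpow_natCast, ordS_zpow hO.1 hl, div_eq_mul_inv, ← zpow_neg_one,
    ordS_mul hO.1 (pow_ne_zero _ (div_ne_zero hπ0 hJ0)) (zpow_ne_zero _ hc.hu),
    ordS_zpow hO.1 hc.hu, ← zpow_natCast, ordS_zpow hO.1 (div_ne_zero hπ0 hJ0), div_eq_mul_inv,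
    ← zpow_neg_one, ordS_mul hO.1 hπ0 (zpow_ne_zero _ hJ0), ordS_zpow hO.1 hJ0, e1] at p5
  refine (Int.cast_le.2 p5).trans_eq ?_
  rw [ldisc, hJ]
  push_cast
  field_simp
  ring

end Pool.Agent.Lib.MP_bc213e_ag.VK
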