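import Pool.Agent.Lib.MP_bc213e_ag.VK.Mu
import Pool.Agent.Lib.MP_bc213e_ag.VK.Klt
import Pool.Agent.Lib.MP_bc213e_ag.VK.Lct
import Pool.Agent.Lib.MP_bc213e_ag.VK.Izu

/-! Noether normalisation and log discrepancies on the generic fibre. -/

namespace Pool.Agent.Lib.MP_bc213e_ag.DD.Geo

open Pool.Agent.Lib.MP_4287a9_ag

variable {K M ι : Type} [Field K] [Algebra ℂ K] [Field M] [Algebra ℂ M] [Algebra K M] {n : ℕ}
  {S : Su K M ι n} {Ω E : Type} [Field Ω] [Algebra ℂ Ω] [Field E] [Algebra ℂ E] [Algebra Ω E]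
  [IsScalarTower ℂ Ω E] {b φ : ℕ} (G : Geo S Ω E b φ) [IsScalarTower ℂ K M] [Fintype ι]

theorem div_mem_Bdk {a : ℕ} {w : M} (h : w ∈ G.Rk a) (j : ι) :
    w / S.X j ^ a ∈ DB.Bd G.k (fun l => S.X l / S.X j) a := by
  intro O c h1 h2 _ h4
  have h5 := G.pre.R_le_Bd a (G.pre_R a ▸ h) O (S.X j * c) h1 (mul_ne_zero (S.X_ne j) h2)
    (by rw [← one_div, ← div_div, ← S.X_one]; exact h4 S.i₀)
    fun l => by simpa only [div_div, pre_X] using h4 l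
  rwa [mul_pow, ← div_div] at h5

/-- Noether normalisation with a degree bound for the norms of sections. -/
theorem exists_nn (j : ι) : ∃ (x : Fin φ → M) (δ : ℕ), (∀ l, x l ∈ G.Dk j) ∧
    IsTranscendenceBasis G.k x ∧
    (∀ o, IsIntegral (Algebra.adjoin G.k (Set.range x)) (S.gen j o)) ∧
    ∀ a, ∀ w ∈ G.Rk a, w ≠ 0 → ∃ p : MvPolynomial (Fin φ) G.k, p ≠ 0 ∧ p.totalDegree ≤ a * δ ∧
      ∀ O : ValuationSubring M, (∀ f ∈ G.Dk j, f ∈ O) →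
        MvPolynomial.aeval x p / (w / S.X j ^ a) ∈ O := by
  have := G.k_charZero
  have hB : ∀ o, ∃ c, S.gen j o ∈ DB.Bd G.k (fun l => S.X l / S.X j) c := fun o => by
    obtain ⟨N, hN⟩ := S.homog (S.gen_mem j o)
    have h1 := G.div_mem_Bdk (Submodule.subset_span (hN N le_rfl)) j
    rw [mul_div_cancel_left₀ _ (pow_ne_zero N (S.X_ne j))] at h1
    exact ⟨N, h1⟩
  obtain ⟨x, h1, h2, h3, h4, -⟩ := DB.gcd (fun l => S.X l / S.X j) (S.gen j) hB (G.pre.gen_E j)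
    G.trdeg_kM
  have h5 : ∀ l, x l ∈ G.Dk j := fun l => (Submodule.span_le.2 (by
    rintro _ ⟨i, rfl⟩
    exact G.B_le_Dk (S.X_div_mem j i)) : _ ≤ Subalgebra.toSubmodule (G.Dk j)) (h1 l)
  refine ⟨x, _, h5, h2, fun o => ?_, fun a w hw h0 => (DB.kl_norm x h2.1
    (DB.Bd_le_Bd _ x h3 a (G.div_mem_Bdk hw j))
    (div_ne_zero h0 (pow_ne_zero a (S.X_ne j)))).imp fun p hp =>
      ⟨hp.1, hp.2.1, fun O hO => hp.2.2 O (fun c => hO _ (algebraMap_mem _ c)) fun l => hO _ (h5 l)⟩⟩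
  obtain ⟨c, hc⟩ := hB o
  exact DB.isIntegral_of_Bd x (DB.Bd_le_Bd _ x h3 c hc)

variable [IsAlgClosed Ω]

theorem ldisc_pos {d : ℕ} (hk : S.VK d) (hb : d + 2 ≤ b) {j : ι} {D : Fin φ → Derivation G.k M M}
    {u : M} (hu : ∀ z, G.mz z = u * jac D z ^ S.m) {T : Finset M} {O : ValuationSubring M}
    (h : IsDiv (G.Dk j) T O) : 0 < ldisc D u S.m O := by
  obtain ⟨z, D', l₀, π, hπ, h0, hz, hF, hD⟩ := G.exists_chart h
  have h1 : ∀ c, z c ∈ O := fun c => h.2.1 _ (hz c)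
  have h2 := G.klt_div hk hb h.1 (fun f hf => h.base (⟨f, hf⟩ : G.Dk j)) hπ h0 h1 hF hD
  have h3 := G.mz_ne hF
  rw [hu] at h2 h3
  have h4 := left_ne_zero_of_mul h3
  have h5 : jac D z ≠ 0 := fun e => h3 (by rw [e, zero_pow S.mpos, mul_zero])
  have h6 : ordS O (jacs D O) = ordS O {jac D z} := by
    refine ordS_eq_of_gen ⟨z, h1, rfl⟩ ?_ h5
    rintro _ ⟨w, hw, rfl⟩
    have e := G.mz_eq hF w
    rw [hu, hu, mul_assoc, mul_right_inj' h4, mul_comm, ← div_eq_iff (pow_ne_zero _ h5),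
      ← div_pow] at e
    rw [← O.valuation_le_one_iff, ← pow_le_one_iff S.mpos, ← map_pow, O.valuation_le_one_iff]
    exact e ▸ pow_mem (kl_det O fun a c => hD _ _ (hw c)) _
  have h7 := wv1_ne hπ
  have h8 := not_le.1 ((ordS_le_iff h.1 (pow_ne_zero S.m h7) h3).not.2 (by
    rw [← O.valuation_le_one_iff, map_div₀, map_pow, div_le_one₀ (pow_pos
      (zero_lt_iff.2 ((Valuation.ne_zero_iff _).2 h7)) _)]
    exact h2.not_ge))
  rw [ordS_mul h.1 h4 (pow_ne_zero _ h5), ← zpow_natCast, ← zpow_natCast, ordS_zpow h.1 h5,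
    ordS_zpow h.1 h7, ordS_eq_of_unit (e := 1) h.1 hπ h7 (by simp [h7]) (by simp [h7])] at h8
  have h9 : (0 : ℝ) < S.m := Nat.cast_pos.2 (Nat.pos_of_ne_zero S.mpos)
  rw [ldisc, h6, sub_pos, div_lt_iff₀ h9]
  have : ((ordS O {u} + S.m * ordS O {jac D z} : ℤ) : ℝ) < ((S.m * 1 : ℤ) : ℝ) := Int.cast_lt.2 h8
  push_cast at this
  linarith

end Pool.Agent.Lib.MP_bc213e_ag.DD.Geo
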