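import Pool.Agent.Lib.MP_bc213e_ag.VK.Norm
import Pool.Agent.Lib.MP_bc213e_ag.DC.Car

/-! The densities of regular forms are regular. -/

namespace Pool.Agent.Lib.MP_bc213e_ag.DD

open Pool.Agent.Lib.MP_bc213e_ag.DC

theorem mu_add {M Γ : Type} [Field M] [LinearOrderedCommGroupWithZero Γ] (w : Valuation M Γ)
    {m : ℕ} {c : Γ} {x y a b : M} (hx : w x ≤ 1) (hy : w y ≤ 1) (ha : w a ^ m ≤ c)
    (hb : w b ^ m ≤ c) : w (x * a + y * b) ^ m ≤ c := by
  rcases le_max_iff.1 (w.map_add (x * a) (y * b)) with h | h <;> rw [map_mul] at h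
  · exact (pow_le_pow_left' (h.trans (mul_le_of_le_one_left' hx)) m).trans ha
  · exact (pow_le_pow_left' (h.trans (mul_le_of_le_one_left' hy)) m).trans hb

theorem mu_der {M Γ : Type} [Field M] [Algebra ℂ M] [LinearOrderedCommGroupWithZero Γ]
    (δ : Derivation ℂ M M) (w : Valuation M Γ) {T : Set M}
    (hT : ∀ t ∈ Algebra.adjoin ℂ T, w t ≤ 1) {m : ℕ} (hm : m ≠ 0) {c : Γ}
    (h : ∀ t ∈ T, w (δ t) ^ m ≤ c) {s z : M} (hs : s ∈ Algebra.adjoin ℂ T) (h1 : w s = 1)
    (hz : s * z ∈ Algebra.adjoin ℂ T) : w (δ z) ^ m ≤ c := by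
  have key : ∀ t ∈ Algebra.adjoin ℂ T, w (δ t) ^ m ≤ c := fun t ht => by
    induction ht using Algebra.adjoin_induction with
    | mem x hx => exact h x hx
    | algebraMap r =>
      rw [Derivation.map_algebraMap, map_zero, zero_pow hm]
      exact zero_le
    | add x y _ _ hx hy =>
      rw [map_add, ← one_mul (δ x), ← one_mul (δ y)]
      exact mu_add w w.map_one.le w.map_one.le hx hy
    | mul x y a b hx hy =>
      rw [Derivation.leibniz]
      exact mu_add w (hT x a) (hT y b) hy hx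
  have h2 : w (-z) ≤ 1 := by
    have := hT _ hz
    rwa [map_mul, h1, one_mul, ← Valuation.map_neg] at this
  have h3 := mu_add w w.map_one.le h2 (key _ hz) (key _ hs)
  rwa [show 1 * δ (s * z) + -z * δ s = s * δ z by
    rw [Derivation.leibniz, smul_eq_mul, smul_eq_mul]; ring, map_mul, h1, one_mul] at h3

/-- A bound for the Jacobians of generators extends to the local ring. -/
theorem jac_le_of_gen {M κ Γ : Type} [Field M] [Algebra ℂ M] [Fintype κ] [DecidableEq κ]
    [LinearOrderedCommGroupWithZero Γ] (D : κ → Derivation ℂ M M) (w : Valuation M Γ)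
    {T : Set M} (hT : ∀ t ∈ Algebra.adjoin ℂ T, w t ≤ 1) {m : ℕ} (hm : m ≠ 0) {c : Γ}
    (h : ∀ F : κ → M, (∀ i, F i ∈ T) → w (Jac D F) ^ m ≤ c) (F : κ → M)
    (hF : ∀ i, ∃ s ∈ Algebra.adjoin ℂ T, w s = 1 ∧ s * F i ∈ Algebra.adjoin ℂ T) :
    w (Jac D F) ^ m ≤ c := by
  have key : ∀ (S : Finset κ) (F : κ → M),
      (∀ i ∈ S, ∃ s ∈ Algebra.adjoin ℂ T, w s = 1 ∧ s * F i ∈ Algebra.adjoin ℂ T) →
      (∀ i ∉ S, F i ∈ T) → w (Jac D F) ^ m ≤ c := by
    intro S
    induction S using Finset.induction_on with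
    | empty => exact fun F _ h1 => h F fun i => h1 i (Finset.notMem_empty i)
    | insert b S hb ih =>
      intro F h1 h2
      obtain ⟨δ, hδ⟩ := car_exD D F b
      obtain ⟨s, s1, s2, s3⟩ := h1 b (Finset.mem_insert_self b S)
      rw [← Function.update_eq_self b F, hδ]
      refine mu_der δ w hT hm (fun t ht => ?_) s1 s2 s3
      rw [← hδ]
      refine ih _ (fun i hi => ?_) fun i hi => ?_
      · rw [Function.update_of_ne fun e : i = b => hb (e ▸ hi)]
        exact h1 i (Finset.mem_insert_of_mem hi)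
      · by_cases e : i = b
        · rwa [e, Function.update_self]
        · rw [Function.update_of_ne e]
          exact h2 i fun h4 => (Finset.mem_insert.1 h4).elim e hi
  exact key Finset.univ F (fun i _ => hF i) fun i hi => absurd (Finset.mem_univ i) hi

theorem Su.mu_gen {K M ι : Type} [Field K] [Algebra ℂ K] [Field M] [Algebra ℂ M] [Algebra K M]
    [IsScalarTower ℂ K M] {n : ℕ} (S : Su K M ι n) (j : ι) (F : Option (Fin n) → M)
    (hF : ∀ o, F o ∈ Set.range (S.gen j)) : S.mu F ∈ S.B j := by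
  have h0 : Jac S.Dref F = 0 → S.mu F ∈ S.B j := fun h => by
    rw [show S.mu F = S.u ^ (S.m + 1) * Jac S.Dref F ^ S.m from rfl, h, zero_pow S.mpos, mul_zero]
    exact zero_mem _
  have h1 : ∀ o, F o = S.v j ∨ ∃ r ∈ Hyp.chart S.x j, F o = algebraMap K M r := fun o => by
    obtain ⟨_ | l, e⟩ := hF o
    · exact Or.inl e.symm
    · exact Or.inr ⟨_, Algebra.subset_adjoin ⟨l, rfl⟩, e.symm.trans (map_div₀ _ _ _).symm⟩
  by_cases h2 : ∃ o, F o = S.v j
  · obtain ⟨o, ho⟩ := h2
    by_cases h3 : ∃ o', o' ≠ o ∧ F o' = S.v j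
    · obtain ⟨o', a1, a2⟩ := h3
      exact h0 (car_eq _ a1 (a2.trans ho.symm))
    · have h4 : ∀ a : Fin n, ∃ r ∈ Hyp.chart S.x j,
          F (Equiv.swap none o (some a)) = algebraMap K M r := fun a =>
        (h1 _).resolve_left fun e => h3 ⟨_, fun e' => Option.some_ne_none a
          ((Equiv.swap none o).injective (e'.trans (Equiv.swap_apply_left _ _).symm)), e⟩
      choose Y y1 y2 using h4
      have h5 : F ∘ Equiv.swap none o = fun o => o.elim (S.v j) fun a => algebraMap K M (Y a) := by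
        funext p
        rcases p with _ | a
        · exact (congrArg F (Equiv.swap_apply_left _ _)).trans ho
        · exact y2 a
      have h6 : S.mu (F ∘ Equiv.swap none o) ∈ S.B j := by
        rw [h5, S.mu_v]
        exact mul_mem (S.map_mem_B (S.eff j Y y1)) (pow_mem (S.v_mem j) _)
      have h7 : Jac S.Dref (F ∘ Equiv.swap none o) = _ * Jac S.Dref F :=
        Matrix.det_permute' (Equiv.swap none o) (Matrix.of fun a b => S.Dref a (F b))
      have h8 : S.mu (F ∘ Equiv.swap none o) =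
          ((Equiv.Perm.sign (Equiv.swap none o) : ℤ) : M) ^ S.m * S.mu F := by
        rw [show S.mu (F ∘ Equiv.swap none o) =
          S.u ^ (S.m + 1) * Jac S.Dref (F ∘ Equiv.swap none o) ^ S.m from rfl, h7, mul_pow,
          mul_left_comm]
        rfl
      rw [h8] at h6
      rcases Int.units_eq_one_or (Equiv.Perm.sign (Equiv.swap none o)) with e | e <;> rw [e] at h6
      · simpa using h6
      · rcases neg_one_pow_eq_or M S.m with e' | e' <;> simpa [e'] using h6
  · refine h0 (Matrix.det_eq_zero_of_row_eq_zero none fun o => ?_)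
    obtain ⟨r, -, e⟩ := (h1 o).resolve_left fun e => h2 ⟨o, e⟩
    rw [Matrix.of_apply, e, S.Dref_none]

namespace Geo

variable {K M ι : Type} [Field K] [Algebra ℂ K] [Field M] [Algebra ℂ M] [Algebra K M] {n : ℕ}
  {S : Su K M ι n} {Ω E : Type} [Field Ω] [Algebra ℂ Ω] [Field E] [Algebra ℂ E] [Algebra Ω E]
  [IsScalarTower ℂ Ω E] {b φ : ℕ} (G : Geo S Ω E b φ) [IsScalarTower ℂ K M] [Fintype ι]
  [IsAlgClosed Ω]

theorem mu_mem_Dk {j : ι} {F : Option (Fin n) → M} (hF : ∀ o, F o ∈ G.Dk j) :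
    S.mu F ∈ G.Dk j := by
  refine G.mem_Dk_of_val fun V hV => ?_
  have h0 : 0 < V.valuation (S.mu S.tb) :=
    zero_lt_iff.2 ((Valuation.ne_zero_iff _).2 (S.mu_ne_zero S.frame_ref))
  have h1 : ∀ F, V.valuation (Jac S.Dref F) ^ S.m ≤ (V.valuation (S.mu S.tb))⁻¹ ↔ S.mu F ∈ V :=
    fun F => by
      rw [← V.valuation_le_one_iff, S.mu_chain S.frame_ref F, map_mul, map_pow,
        ← mul_one (V.valuation (S.mu S.tb))⁻¹, le_inv_mul_iff₀ h0]
      rfl
  exact (h1 F).1 (jac_le_of_gen S.Dref V.valuation (T := Set.range (S.gen j))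
    (fun t ht => (V.valuation_le_one_iff t).2 (hV t (G.B_le_Dk ht))) S.mpos
    (fun F' h => (h1 F').2 (hV _ (G.B_le_Dk (S.mu_gen j F' h)))) F
    fun o => G.exists_den V hV (hF o))

theorem mz_mem_Dk {j : ι} {z : Fin φ → M} (hz : ∀ c, z c ∈ G.Dk j) : G.mz z ∈ G.Dk j :=
  G.mu_mem_Dk fun o => by
    change Sum.elim G.y z (G.ε o) ∈ _
    rcases G.ε o with i | c
    · exact G.k_le_Dk j (G.y_mem i)
    · exact hz c

end Geo

end Pool.Agent.Lib.MP_bc213e_ag.DD
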