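import Pool.Agent.Lib.MP_bc213e_ag.VK.Defs

/-! The generic fibre is normal. -/

namespace Pool.Agent.Lib.MP_bc213e_ag.DD.Geo

open Pool.Agent.Lib.MP_bc213e_ag.DL

variable {K M ι : Type} [Field K] [Algebra ℂ K] [Field M] [Algebra ℂ M] [Algebra K M] {n : ℕ}
  {S : Su K M ι n} {Ω E : Type} [Field Ω] [Algebra ℂ Ω] [Field E] [Algebra ℂ E] [Algebra Ω E]
  [IsScalarTower ℂ Ω E] {b φ : ℕ} (G : Geo S Ω E b φ) [IsScalarTower ℂ K M] [Fintype ι]
  [IsAlgClosed Ω]

theorem nm_loc {R F L : Type} [CommRing R] [Field F] [Algebra R F] [Field L] [Algebra R L]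
    {C : Subalgebra R F} (ev : C →ₐ[R] L) [IsFractionRing C F] [IsIntegrallyClosed C] {f : F}
    (h : IsIntegral (loc C ev) f) : f ∈ loc C ev := by
  let : Algebra C (loc C ev) := (Subalgebra.inclusion (le_loc ev)).toRingHom.toAlgebra
  have : IsScalarTower C (loc C ev) F := .of_algebraMap_eq fun _ => rfl
  have : IsLocalization ((nonZeroDivisors L).comap ev) (loc C ev) :=
    { map_units := fun y => isUnit_of_evL (by
        rw [evL_eq (g := y.1) rfl]
        exact nonZeroDivisors.ne_zero y.2)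
      surj := fun z => by
        obtain ⟨g, g1, g2⟩ := z.2
        exact ⟨⟨⟨_, g2⟩, g, mem_nonZeroDivisors_of_ne_zero g1⟩, Subtype.ext (mul_comm _ _)⟩
      exists_of_eq := fun {x y} e => ⟨1, by
        have e' : ((algebraMap C (loc C ev) x : loc C ev) : F) = algebraMap C (loc C ev) y :=
          congrArg _ e
        rw [show x = y from Subtype.ext e']⟩ }
  obtain ⟨m, hm⟩ := h.exists_multiple_integral_of_isLocalization ((nonZeroDivisors L).comap ev) f
  obtain ⟨z, hz⟩ := (IsIntegrallyClosed.isIntegral_iff (R := C) (K := F)).1 hm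
  exact ⟨m.1, nonZeroDivisors.ne_zero m.2, (show (z : F) = (m.1 : F) * f from hz) ▸ z.2⟩

omit [IsScalarTower ℂ K M] [Fintype ι] [IsAlgClosed Ω] in
theorem nm_adj : Algebra.adjoin ℂ (Set.range G.y) ≤ G.k.toSubalgebra := by
  refine Algebra.adjoin_le ?_
  rintro _ ⟨i, rfl⟩
  exact G.y_mem i

/-- The centre of a valuation ring that contains the chart ring of the generic fibre. -/
theorem exists_centre {j : ι} (V : ValuationSubring M) (h : ∀ f ∈ G.Dk j, f ∈ V) :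
    ∃ ev : G.C j →ₐ[Ω] Ω, ∀ f : S.B j, G.ez ev f = 0 ↔ V.valuation f < 1 := by
  obtain ⟨A, ψ, hB, hk, hψ, hψ'⟩ := G.exists_pt j V (fun f hf => h f (G.B_le_Dk hf)) fun P hP => by
    have h1 : MvPolynomial.aeval G.y P ∈ G.k :=
      G.nm_adj (Algebra.adjoin_range_eq_range_aeval ℂ G.y ▸ ⟨P, rfl⟩)
    have h0 : MvPolynomial.aeval G.y P ≠ 0 := fun e => hP (G.y_ind (e.trans (map_zero _).symm))
    have h2 := (V.valuation_le_one_iff _).2 (h _ (G.k_le_Dk j (inv_mem h1)))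
    rw [map_inv₀, inv_le_one₀ ((Valuation.pos_iff _).2 h0)] at h2
    exact le_antisymm ((V.valuation_le_one_iff _).2 (h _ (G.k_le_Dk j h1))) h2
  obtain ⟨ev, hev⟩ := G.exists_ev j A hB hk ψ hψ
  exact ⟨ev, fun f => by rw [hev, hψ']⟩

theorem Oz_int {j : ι} (ev : G.C j →ₐ[Ω] Ω) {f : M} (h : IsIntegral (G.Oz ev) f) :
    f ∈ G.Oz ev := by
  have := S.frac_B j
  have := S.norm_B j
  exact nm_loc _ h

theorem k_le_Oz {j : ι} (ev : G.C j →ₐ[Ω] Ω) {f : M} (h : f ∈ G.k) : f ∈ G.Oz ev := by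
  have h1 : Algebra.adjoin ℂ (Set.range G.y) ≤ G.Oz ev := by
    refine Algebra.adjoin_le ?_
    rintro _ ⟨i, rfl⟩
    exact G.y_mem_Oz (fun ev d hd i => G.kill ev d hd (G.y_mem i)) ev i
  obtain ⟨c, hc, hint⟩ := (G.y_alg f h).exists_integral_multiple
  have h0 : (c : M) ≠ 0 := fun e => hc (Subtype.ext e)
  have h2 : (c : M) * f ∈ G.Oz ev := G.Oz_int ev
    (hint.map_of_comp_eq (Subalgebra.inclusion h1).toRingHom (RingHom.id M) rfl)
  have h3 : (c : M)⁻¹ ∈ G.Oz ev := DL.inv_mem (⟨c, h1 c.2⟩ : G.Oz ev) (by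
    rw [G.evL_k ev (G.nm_adj c.2)]
    exact (map_ne_zero G.e).2 h0)
  simpa only [inv_mul_cancel_left₀ h0] using mul_mem h3 h2

theorem Dk_le_Oz {j : ι} (ev : G.C j →ₐ[Ω] Ω) {f : M} (h : f ∈ G.Dk j) : f ∈ G.Oz ev := by
  induction h using Algebra.adjoin_induction with
  | mem x hx =>
    obtain ⟨o, rfl⟩ := hx
    exact le_loc _ (S.gen_mem j o)
  | algebraMap r => exact G.k_le_Oz ev r.2
  | add x y _ _ hx hy => exact add_mem hx hy
  | mul x y _ _ hx hy => exact mul_mem hx hy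

theorem mem_Dk_of_Oz {j : ι} {f : M} (h : ∀ ev : G.C j →ₐ[Ω] Ω, f ∈ G.Oz ev) : f ∈ G.Dk j := by
  let I : Ideal (G.Dk j).toSubring :=
    { carrier := {g | (g : M) * f ∈ G.Dk j}
      add_mem' := fun {a b} ha hb => by
        change ((a : M) + b) * f ∈ G.Dk j
        rw [add_mul]
        exact add_mem ha hb
      zero_mem' := by
        change (0 : M) * f ∈ G.Dk j
        rw [zero_mul]
        exact zero_mem _
      smul_mem' := fun c a ha => by
        change (c : M) * a * f ∈ G.Dk j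
        rw [mul_assoc]
        exact mul_mem c.2 ha }
  by_contra hf
  obtain ⟨V, h1, h2⟩ := Ideal.image_subset_nonunits_valuationSubring I fun e => hf (by
    have h3 : (1 : M) * f ∈ G.Dk j := (Ideal.eq_top_iff_one I).1 e
    rwa [one_mul] at h3)
  obtain ⟨ev, hev⟩ := G.exists_centre V fun g hg => h1 hg
  obtain ⟨g, g1, g2⟩ := h ev
  exact g1 ((hev g).2 (V.mem_nonunits_iff.1 (h2 ⟨⟨g, G.B_le_Dk g.2⟩, G.B_le_Dk g2, rfl⟩)))

theorem nm_int {j : ι} {f : M} (h : IsIntegral (G.Dk j) f) : f ∈ G.Dk j :=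
  G.mem_Dk_of_Oz fun ev => G.Oz_int ev (h.map_of_comp_eq
    ((G.Dk j).val.toRingHom.codRestrict (G.Oz ev).toSubring fun g => G.Dk_le_Oz ev g.2)
    (RingHom.id M) rfl)

theorem Dk_norm (j : ι) : IsIntegrallyClosed (G.Dk j) := by
  have := G.Dk_frac j
  exact (isIntegrallyClosed_iff M).2 fun h => ⟨⟨_, G.nm_int h⟩, rfl⟩

theorem v_inv_Dk (j : ι) : (S.v j)⁻¹ ∈ G.Dk j := by
  exact G.mem_Dk_of_Oz fun ev => inv_mem' (G.ez_v ev)

theorem mem_Dk_of_val {j : ι} {f : M}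
    (h : ∀ V : ValuationSubring M, (∀ g ∈ G.Dk j, g ∈ V) → f ∈ V) : f ∈ G.Dk j := by
  have h1 : f ∈ (integralClosure (Subring.closure (G.Dk j : Set M)) M).toSubring := by
    rw [← iInf_valuationSubring_superset, Subring.mem_iInf]
    exact fun V => h V.1 fun g hg => V.2 hg
  rw [show Subring.closure (G.Dk j : Set M) = (G.Dk j).toSubring from
    Subring.closure_eq (G.Dk j).toSubring] at h1
  exact G.nm_int h1

theorem exists_den {j : ι} (V : ValuationSubring M) (h : ∀ f ∈ G.Dk j, f ∈ V) {f : M}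
    (hf : f ∈ G.Dk j) : ∃ s ∈ S.B j, V.valuation s = 1 ∧ s * f ∈ S.B j := by
  obtain ⟨ev, hev⟩ := G.exists_centre V h
  obtain ⟨s, s1, s2⟩ := G.Dk_le_Oz ev hf
  exact ⟨s, s.2, le_antisymm ((V.valuation_le_one_iff _).2 (h _ (G.B_le_Dk s.2)))
    (not_lt.1 fun e => s1 ((hev s).2 e)), s2⟩

end Pool.Agent.Lib.MP_bc213e_ag.DD.Geo
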